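import Mathlib

/-!
# The explicit sum `S_M(c; z)` of the leg functions: recursion and uniqueness

`q` is a primitive cube root of unity in a field `K`.  For a finite set `s` of indices, spectral
parameters `z : ι → K` (pairwise distinct), and a list `c` of leg parameters, `SG` is
`∑_{A ⊆ s} ∏_{j ∈ A} (u ∏_i (c_i - q z_j)) ∏_{j ∈ s \ A} (v ∏_i (c_i - q² z_j)) ∏_{j ∈ A, k ∈ s \ A} g (z_j, z_k)`.
-/

set_option autoImplicit false

namespace Pool.Agent.H96.EX

open Finset Polynomial

variable {K ι : Type*} [Field K] [DecidableEq ι]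

/-- `(w - q z)² / ((w - z) (w - q² z))` -/
noncomputable def gg (q z w : K) : K := (w - q * z) ^ 2 / ((w - z) * (w - q ^ 2 * z))

/-- the product of `c_i - x` over the legs -/
def lg (c : List K) (x : K) : K := (c.map fun a => a - x).prod

/-- the explicit sum -/
noncomputable def SG (q u v : K) (s : Finset ι) (c : List K) (z : ι → K) : K :=
  ∑ A ∈ s.powerset, (∏ j ∈ A, u * lg c (q * z j)) * (∏ j ∈ s \ A, v * lg c (q ^ 2 * z j)) *
    ∏ j ∈ A, ∏ k ∈ s \ A, gg q (z j) (z k)

@[simp] lemma lg_nil (x : K) : lg [] x = 1 := by simp [lg]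
@[simp] lemma lg_cons (a : K) (c : List K) (x : K) : lg (a :: c) x = (a - x) * lg c x := by
  simp [lg]

lemma lg_perm {c c' : List K} (h : c.Perm c') (x : K) : lg c x = lg c' x := by
  unfold lg; exact (h.map _).prod_eq

lemma lg_append (c c' : List K) (x : K) : lg (c ++ c') x = lg c x * lg c' x := by
  simp [lg]

lemma SG_perm {q u v : K} {s : Finset ι} {c c' : List K} (h : c.Perm c') (z : ι → K) :
    SG q u v s c z = SG q u v s c' z := by
  unfold SG
  simp only [lg_perm h]

lemma SG_empty (q u v : K) (c : List K) (z : ι → K) : SG q u v ∅ c z = 1 := by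
  simp [SG]

/-- splitting the sum according to whether `a ∈ A` -/
lemma SG_split (q u v : K) {s : Finset ι} {a : ι} (ha : a ∈ s) (c : List K) (z : ι → K) :
    SG q u v s c z =
      (∑ A ∈ (s.erase a).powerset, (u * lg c (q * z a)) * (∏ j ∈ A, u * lg c (q * z j)) *
        (∏ j ∈ s.erase a \ A, v * lg c (q ^ 2 * z j)) *
        ((∏ k ∈ s.erase a \ A, gg q (z a) (z k)) *
          ∏ j ∈ A, ∏ k ∈ s.erase a \ A, gg q (z j) (z k))) +
      (∑ A ∈ (s.erase a).powerset, (∏ j ∈ A, u * lg c (q * z j)) *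
        ((v * lg c (q ^ 2 * z a)) * ∏ j ∈ s.erase a \ A, v * lg c (q ^ 2 * z j)) *
        ((∏ j ∈ A, gg q (z j) (z a)) *
          ∏ j ∈ A, ∏ k ∈ s.erase a \ A, gg q (z j) (z k))) := by
  unfold SG
  have hs : s = insert a (s.erase a) := (insert_erase ha).symm
  conv_lhs => rw [hs]
  have hna : a ∉ s.erase a := notMem_erase a s
  rw [Finset.sum_powerset_insert hna, add_comm]
  congr 1
  · apply Finset.sum_congr rfl
    intro A hA
    rw [mem_powerset] at hA
    have hA' : a ∉ A := fun h => hna (hA h)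
    have h1 : insert a (s.erase a) \ insert a A = s.erase a \ A := by
      ext x
      simp only [mem_sdiff, mem_insert, not_or]
      constructor
      · rintro ⟨h | h, h', h''⟩
        · exact absurd h h'
        · exact ⟨h, h''⟩
      · rintro ⟨h, h'⟩
        exact ⟨Or.inr h, fun e => hna (e ▸ h), h'⟩
    rw [h1, Finset.prod_insert hA', Finset.prod_insert hA']
  · apply Finset.sum_congr rfl
    intro A hA
    rw [mem_powerset] at hA
    have hA' : a ∉ A := fun h => hna (hA h)
    have h1 : insert a (s.erase a) \ A = insert a (s.erase a \ A) := by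
      rw [insert_sdiff_of_notMem _ hA']
    have hna' : a ∉ s.erase a \ A := fun h => hna (mem_sdiff.1 h).1
    rw [h1, Finset.prod_insert hna']
    have h3 : (∏ j ∈ A, ∏ k ∈ insert a (s.erase a \ A), gg q (z j) (z k)) =
        (∏ j ∈ A, gg q (z j) (z a)) * ∏ j ∈ A, ∏ k ∈ s.erase a \ A, gg q (z j) (z k) := by
      rw [← Finset.prod_mul_distrib]
      apply Finset.prod_congr rfl
      intro j _
      rw [Finset.prod_insert hna']
    rw [h3]

/-- recursion at `c_1 = q² z_a`: the leg is replaced by the strand `z_a` -/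
theorem SG_rec1 {q u v : K} (hq : q ^ 2 + q + 1 = 0) {s : Finset ι} {a : ι} (ha : a ∈ s)
    (c : List K) (z : ι → K) (hz : ∀ j ∈ s.erase a, z j ≠ z a ∧ z j ≠ q ^ 2 * z a) :
    SG q u v s ((q ^ 2 * z a) :: c) z =
      u * ((q ^ 2 - q) * z a) * lg c (q * z a) *
        (∏ j ∈ s.erase a, (z j - q * z a) / (z j - q ^ 2 * z a)) *
        SG q u v (s.erase a) (z a :: c) z := by
  have q3 : q ^ 3 = 1 := by linear_combination (q - 1) * hq
  rw [SG_split q u v ha]
  have h2 : (∑ A ∈ (s.erase a).powerset, (∏ j ∈ A, u * lg (q ^ 2 * z a :: c) (q * z j)) *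
        ((v * lg (q ^ 2 * z a :: c) (q ^ 2 * z a)) *
          ∏ j ∈ s.erase a \ A, v * lg (q ^ 2 * z a :: c) (q ^ 2 * z j)) *
        ((∏ j ∈ A, gg q (z j) (z a)) *
          ∏ j ∈ A, ∏ k ∈ s.erase a \ A, gg q (z j) (z k))) = 0 := by
    apply Finset.sum_eq_zero
    intro A _
    simp
  rw [h2, add_zero]
  unfold SG
  rw [Finset.mul_sum]
  apply Finset.sum_congr rfl
  intro A hA
  rw [mem_powerset] at hA
  have hsplit : (∏ j ∈ s.erase a, (z j - q * z a) / (z j - q ^ 2 * z a)) =
      (∏ j ∈ A, (z j - q * z a) / (z j - q ^ 2 * z a)) *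
      ∏ j ∈ s.erase a \ A, (z j - q * z a) / (z j - q ^ 2 * z a) := by
    rw [← Finset.prod_sdiff hA (f := fun j => (z j - q * z a) / (z j - q ^ 2 * z a)), mul_comm]
  rw [hsplit]
  have e1 : (∏ j ∈ A, u * lg (q ^ 2 * z a :: c) (q * z j)) =
      (∏ j ∈ A, (z j - q * z a) / (z j - q ^ 2 * z a)) *
        ∏ j ∈ A, u * lg (z a :: c) (q * z j) := by
    rw [← Finset.prod_mul_distrib]
    apply Finset.prod_congr rfl
    intro j hj
    have hne : z j - q ^ 2 * z a ≠ 0 := sub_ne_zero.2 (hz j (hA hj)).2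
    rw [lg_cons, lg_cons, div_mul_eq_mul_div, eq_div_iff hne]
    linear_combination (u * lg c (q * z j) * z a * (z j - q * z a)) * q3
  have e2 : (∏ j ∈ s.erase a \ A, v * lg (q ^ 2 * z a :: c) (q ^ 2 * z j)) *
      (∏ k ∈ s.erase a \ A, gg q (z a) (z k)) =
      (∏ j ∈ s.erase a \ A, (z j - q * z a) / (z j - q ^ 2 * z a)) *
        ∏ j ∈ s.erase a \ A, v * lg (z a :: c) (q ^ 2 * z j) := by
    rw [← Finset.prod_mul_distrib, ← Finset.prod_mul_distrib]
    apply Finset.prod_congr rfl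
    intro j hj
    have hj' := (mem_sdiff.1 hj).1
    have hne : z j - q ^ 2 * z a ≠ 0 := sub_ne_zero.2 (hz j hj').2
    have hne1 : z j - z a ≠ 0 := sub_ne_zero.2 (hz j hj').1
    rw [lg_cons, lg_cons, gg, mul_div_assoc', div_mul_eq_mul_div, div_eq_div_iff (mul_ne_zero hne1 hne) hne]
    linear_combination (v * lg c (q ^ 2 * z j) * (z j - q ^ 2 * z a) * (z j - z a) *
      (z j - q * z a) * z a) * q3
  rw [e1, lg_cons]
  calc _ = (u * ((q ^ 2 * z a - q * z a) * lg c (q * z a))) *
        ((∏ j ∈ A, (z j - q * z a) / (z j - q ^ 2 * z a)) *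
        ∏ j ∈ A, u * lg (z a :: c) (q * z j)) *
        ((∏ j ∈ s.erase a \ A, v * lg (q ^ 2 * z a :: c) (q ^ 2 * z j)) *
        (∏ k ∈ s.erase a \ A, gg q (z a) (z k))) *
          ∏ j ∈ A, ∏ k ∈ s.erase a \ A, gg q (z j) (z k) := by ring
    _ = _ := by rw [e2]; ring

/-- recursion at `c_1 = q z_a`: the leg is replaced by the strand `z_a` -/
theorem SG_rec2 {q u v : K} (hq : q ^ 2 + q + 1 = 0) {s : Finset ι} {a : ι} (ha : a ∈ s)
    (c : List K) (z : ι → K) (hz : ∀ j ∈ s.erase a, z j ≠ z a ∧ z j ≠ q * z a) :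
    SG q u v s ((q * z a) :: c) z =
      v * ((q - q ^ 2) * z a) * lg c (q ^ 2 * z a) *
        (∏ j ∈ s.erase a, (z j - q ^ 2 * z a) / (z j - q * z a)) *
        SG q u v (s.erase a) (z a :: c) z := by
  have q3 : q ^ 3 = 1 := by linear_combination (q - 1) * hq
  rw [SG_split q u v ha]
  have h2 : (∑ A ∈ (s.erase a).powerset, (u * lg (q * z a :: c) (q * z a)) *
        (∏ j ∈ A, u * lg (q * z a :: c) (q * z j)) *
        (∏ j ∈ s.erase a \ A, v * lg (q * z a :: c) (q ^ 2 * z j)) *
        ((∏ k ∈ s.erase a \ A, gg q (z a) (z k)) *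
          ∏ j ∈ A, ∏ k ∈ s.erase a \ A, gg q (z j) (z k))) = 0 := by
    apply Finset.sum_eq_zero
    intro A _
    simp
  rw [h2, zero_add]
  unfold SG
  rw [Finset.mul_sum]
  apply Finset.sum_congr rfl
  intro A hA
  rw [mem_powerset] at hA
  have hsplit : (∏ j ∈ s.erase a, (z j - q ^ 2 * z a) / (z j - q * z a)) =
      (∏ j ∈ A, (z j - q ^ 2 * z a) / (z j - q * z a)) *
      ∏ j ∈ s.erase a \ A, (z j - q ^ 2 * z a) / (z j - q * z a) := by
    rw [← Finset.prod_sdiff hA (f := fun j => (z j - q ^ 2 * z a) / (z j - q * z a)), mul_comm]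
  rw [hsplit]
  have e1 : (∏ j ∈ s.erase a \ A, v * lg (q * z a :: c) (q ^ 2 * z j)) =
      (∏ j ∈ s.erase a \ A, (z j - q ^ 2 * z a) / (z j - q * z a)) *
        ∏ j ∈ s.erase a \ A, v * lg (z a :: c) (q ^ 2 * z j) := by
    rw [← Finset.prod_mul_distrib]
    apply Finset.prod_congr rfl
    intro j hj
    have hj' := (mem_sdiff.1 hj).1
    have hne : z j - q * z a ≠ 0 := sub_ne_zero.2 (hz j hj').2
    rw [lg_cons, lg_cons, div_mul_eq_mul_div, eq_div_iff hne]
    linear_combination (v * lg c (q ^ 2 * z j) * z a * z j * (1 - q)) * q3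
  have e2 : (∏ j ∈ A, u * lg (q * z a :: c) (q * z j)) *
      (∏ j ∈ A, gg q (z j) (z a)) =
      (∏ j ∈ A, (z j - q ^ 2 * z a) / (z j - q * z a)) *
        ∏ j ∈ A, u * lg (z a :: c) (q * z j) := by
    rw [← Finset.prod_mul_distrib, ← Finset.prod_mul_distrib]
    apply Finset.prod_congr rfl
    intro j hj
    have hj' := hA hj
    have hne : z j - q * z a ≠ 0 := sub_ne_zero.2 (hz j hj').2
    have hne1 : z a - z j ≠ 0 := sub_ne_zero.2 (hz j hj').1.symm
    have hne2 : z a - q ^ 2 * z j ≠ 0 := by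
      intro h
      apply hne
      linear_combination (-q) * h - z j * q3
    rw [lg_cons, lg_cons, gg, mul_div_assoc', div_mul_eq_mul_div,
      div_eq_div_iff (mul_ne_zero hne1 hne2) hne]
    linear_combination (u * lg c (q * z j) * z j * z a * (q * (1 - q) * z j ^ 2 +
      (1 - q) * z a ^ 2 + (q ^ 2 - 1) * z j * z a)) * q3
  rw [e1, lg_cons]
  calc _ = (v * ((q * z a - q ^ 2 * z a) * lg c (q ^ 2 * z a))) *
        ((∏ j ∈ A, u * lg (q * z a :: c) (q * z j)) * (∏ j ∈ A, gg q (z j) (z a))) *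
        ((∏ j ∈ s.erase a \ A, (z j - q ^ 2 * z a) / (z j - q * z a)) *
        ∏ j ∈ s.erase a \ A, v * lg (z a :: c) (q ^ 2 * z j)) *
          ∏ j ∈ A, ∏ k ∈ s.erase a \ A, gg q (z j) (z k) := by ring
    _ = _ := by rw [e2]; ring


/-- `SG` as a polynomial in the first leg parameter -/
noncomputable def SGpoly (q u v : K) (s : Finset ι) (c : List K) (z : ι → K) : K[X] :=
  ∑ A ∈ s.powerset, (∏ j ∈ A, C (u * lg c (q * z j)) * (X - C (q * z j))) *
    (∏ j ∈ s \ A, C (v * lg c (q ^ 2 * z j)) * (X - C (q ^ 2 * z j))) *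
    C (∏ j ∈ A, ∏ k ∈ s \ A, gg q (z j) (z k))

lemma SGpoly_eval (q u v : K) (s : Finset ι) (c : List K) (z : ι → K) (x : K) :
    (SGpoly q u v s c z).eval x = SG q u v s (x :: c) z := by
  unfold SGpoly SG
  rw [eval_finsetSum]
  apply Finset.sum_congr rfl
  intro A _
  simp only [eval_mul, eval_C, eval_prod, eval_sub, eval_X, lg_cons]
  congr 2
  · apply Finset.prod_congr rfl; intro j _; ring
  · apply Finset.prod_congr rfl; intro j _; ring

lemma SGpoly_natDegree (q u v : K) (s : Finset ι) (c : List K) (z : ι → K) :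
    (SGpoly q u v s c z).natDegree ≤ s.card := by
  unfold SGpoly
  apply natDegree_sum_le_of_forall_le
  intro A hA
  rw [mem_powerset] at hA
  have hb : ∀ (T : Finset ι) (f g : ι → K),
      (∏ j ∈ T, C (f j) * (X - C (g j))).natDegree ≤ T.card := by
    intro T f g
    refine (natDegree_prod_le _ _).trans ?_
    rw [Finset.card_eq_sum_ones]
    apply Finset.sum_le_sum
    intro j _
    refine (natDegree_C_mul_le _ _).trans ?_
    exact natDegree_X_sub_C_le _
  refine (natDegree_mul_le).trans ?_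
  rw [natDegree_C, add_zero]
  refine (natDegree_mul_le).trans ?_
  have h1 := hb A (fun j => u * lg c (q * z j)) (fun j => q * z j)
  have h2 := hb (s \ A) (fun j => v * lg c (q ^ 2 * z j)) (fun j => q ^ 2 * z j)
  have h3 : A.card + (s \ A).card = s.card := by
    rw [Finset.card_sdiff_of_subset hA]
    have := Finset.card_le_card hA
    omega
  simp only at h1 h2
  omega

/-- A polynomial of degree at most `|s|` with `|s| ≥ 1` which agrees with `SG` at the `2|s|`
points `q z_a`, `q² z_a` is `SG`. -/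
theorem SG_unique {q u v : K} {s : Finset ι} (hs : s.Nonempty) (c : List K) (z : ι → K)
    (h1 : ∀ a ∈ s, ∀ b ∈ s, a ≠ b → q * z a ≠ q * z b ∧ q ^ 2 * z a ≠ q ^ 2 * z b)
    (h2 : ∀ a ∈ s, ∀ b ∈ s, q * z a ≠ q ^ 2 * z b)
    (P : K[X]) (hP : P.natDegree ≤ s.card)
    (hv1 : ∀ a ∈ s, P.eval (q * z a) = SG q u v s ((q * z a) :: c) z)
    (hv2 : ∀ a ∈ s, P.eval (q ^ 2 * z a) = SG q u v s ((q ^ 2 * z a) :: c) z) (x : K) :
    P.eval x = SG q u v s (x :: c) z := by
  classical
  rw [← SGpoly_eval]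
  have hkey : P = SGpoly q u v s c z := by
    apply Polynomial.eq_of_natDegree_lt_card_of_eval_eq' P (SGpoly q u v s c z)
      ((s.image fun a => q * z a) ∪ (s.image fun a => q ^ 2 * z a))
    · intro y hy
      rw [SGpoly_eval]
      rw [mem_union, mem_image, mem_image] at hy
      rcases hy with ⟨a, ha, rfl⟩ | ⟨a, ha, rfl⟩
      · exact hv1 a ha
      · exact hv2 a ha
    · have hd : Disjoint (s.image fun a => q * z a) (s.image fun a => q ^ 2 * z a) := by
        rw [Finset.disjoint_left]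
        intro y hy hy'
        rw [mem_image] at hy hy'
        obtain ⟨a, ha, rfl⟩ := hy
        obtain ⟨b, hb, hab⟩ := hy'
        exact h2 a ha b hb hab.symm
      rw [Finset.card_union_of_disjoint hd, Finset.card_image_of_injOn, Finset.card_image_of_injOn]
      · have h3 := SGpoly_natDegree q u v s c z
        have h4 := hs.card_pos
        rw [max_lt_iff]
        omega
      · intro a ha b hb hab
        by_contra hne
        exact (h1 a ha b hb hne).2 hab
      · intro a ha b hb hab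
        by_contra hne
        exact (h1 a ha b hb hne).1 hab
  rw [hkey]

end Pool.Agent.H96.EX
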