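import Pool.Agent.H96.EX.SM

/-!
# Bridge: `S` and the sum `SG` over `range M` with a list of legs (helper56's `TM`)
-/

set_option autoImplicit false

namespace Pool.Agent.H96.EX

open Finset H56.EX

lemma range_eq_map (M : ℕ) : range M = (univ : Finset (Fin M)).map Fin.valEmbedding := by
  ext n
  simp only [mem_range, mem_map, mem_univ, true_and, Fin.valEmbedding_apply]
  exact ⟨fun h => ⟨⟨n, h⟩, rfl⟩, fun ⟨i, hi⟩ => hi ▸ i.isLt⟩

lemma prz_range (M : ℕ) (z : ℕ → ℂ) :
    prz M z = ∏ j ∈ range M, ∏ k ∈ range M, if j < k then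
      (z j) ^ 2 + z j * z k + (z k) ^ 2 else 1 := by
  unfold prz
  rw [range_eq_map, Finset.prod_map]
  apply Finset.prod_congr rfl
  intro j _
  rw [Finset.prod_map]
  apply Finset.prod_congr rfl
  intro k _
  simp only [Fin.valEmbedding_apply, Fin.val_fin_lt]

/-- the same, as a product over pairs `j < k < M` -/
lemma prz_range' (M : ℕ) (z : ℕ → ℂ) :
    prz M z = ∏ k ∈ range M, ∏ j ∈ range k, ((z j) ^ 2 + z j * z k + (z k) ^ 2) := by
  rw [prz_range, Finset.prod_comm]
  apply Finset.prod_congr rfl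
  intro k hk
  rw [← Finset.prod_filter]
  apply Finset.prod_congr
  · ext j
    simp only [mem_filter, mem_range] at hk ⊢
    omega
  · intros; rfl

/-- For strands with pairwise distinct cubes, and any list `c` of `k` legs,
`S` is `prz * SG … (range M) c z`. -/
theorem S_eq_SG_range {k M : ℕ} (u v : ℂ) (c : List ℂ) (hc : c.length = k) (z : ℕ → ℂ)
    (hz : ∀ i j : Fin M, i ≠ j → (z i) ^ 3 ≠ (z j) ^ 3) :
    S k M u v (fun l => c.get (Fin.cast hc.symm l)) z =
      prz M z * SG H56.EX.q u v (range M) c z := by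
  rw [S_eq_SGen _ _ _ _ (ne_of_cubes hz), SGen_eq_SG _ _ _ _ hz, range_eq_map, SG_map]
  congr 1
  subst hc
  apply SG_congr_lg
  intro x
  congr 1
  exact List.ofFn_get c

/-- four legs -/
theorem S4_eq_SG_range {M : ℕ} (a b c d : ℂ) (z : ℕ → ℂ)
    (hz : ∀ i j : Fin M, i ≠ j → (z i) ^ 3 ≠ (z j) ^ 3) :
    S4 M ![a, b, c, d] z =
      prz M z * SG H56.EX.q H56.EX.q (H56.EX.q ^ 2) (range M) [a, b, c, d] z := by
  rw [S4, S_eq_SGen _ _ _ _ (ne_of_cubes hz), SGen_eq_SG _ _ _ _ hz, range_eq_map, SG_map]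
  rfl

end Pool.Agent.H96.EX
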