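import Pool.Agent.H56.EX.Defs

/-!
# LT1: the Temperley–Lieb generator can be moved from the top pattern to the bottom pattern
at glued strands, without changing the leg class.
-/

namespace H56.EX

open Relation

variable {Lt Lb : ℕ}

lemma eqvGen_map {α β : Type*} {r : α → α → Prop} {s : β → β → Prop} (f : α → β)
    (h : ∀ x y, r x y → EqvGen s (f x) (f y)) {x y : α} (hxy : EqvGen r x y) :
    EqvGen s (f x) (f y) := by
  induction hxy with
  | rel x y hxy => exact h x y hxy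
  | refl x => exact EqvGen.refl _
  | symm x y _ ih => exact EqvGen.symm _ _ ih
  | trans x y z _ _ ih1 ih2 => exact EqvGen.trans _ _ _ ih1 ih2

lemma step_swap {kt kb M : ℕ} {Pt : Pat Lt} {Pb : Pat Lb} {x y : ℤ ⊕ ℤ}
    (h : Step kt kb M Pt Pb x y) : EqvGen (Step kb kt M Pb Pt) x.swap y.swap := by
  cases h with
  | top x => exact EqvGen.rel _ _ (Step.bot x)
  | bot y => exact EqvGen.rel _ _ (Step.top y)
  | glue a j hj => exact EqvGen.symm _ _ (EqvGen.rel _ _ (Step.glue a j hj))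

lemma conn_swap {kt kb M : ℕ} {Pt : Pat Lt} {Pb : Pat Lb} {x y : ℤ ⊕ ℤ}
    (h : Conn kt kb M Pt Pb x y) : Conn kb kt M Pb Pt x.swap y.swap :=
  eqvGen_map Sum.swap (fun _ _ h => step_swap h) h

lemma leg_swap_of {kt kb M : ℕ} {Pt : Pat Lt} {Pb : Pat Lb} (h : Leg kt kb M Pt Pb) :
    Leg kb kt M Pb Pt := by
  intro u v a b hc
  have h1 := conn_swap hc
  have e : ∀ (w : Fin kb ⊕ Fin kt) (c : ℤ), (hpos Lb Lt kb kt w c).swap =
      hpos Lt Lb kt kb w.swap c := by
    intro w c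
    rcases w with w | w <;> rfl
  rw [e, e] at h1
  rcases h _ _ _ _ h1 with ⟨h2, h3⟩ | h2
  · left
    refine ⟨?_, h3⟩
    have := congrArg Sum.swap h2
    rwa [Sum.swap_swap, Sum.swap_swap] at this
  · right; exact h2

/-- The leg class is symmetric in top and bottom. -/
lemma leg_swap {kt kb M : ℕ} {Pt : Pat Lt} {Pb : Pat Lb} :
    Leg kt kb M Pt Pb ↔ Leg kb kt M Pb Pt := ⟨leg_swap_of, leg_swap_of⟩

section vmap

variable (kt kb : ℕ) (Pb : Pat Lb) (j : ℕ)

open Classical in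
/-- images of the four special vertices -/
noncomputable def gv (y : ℤ) : ℤ ⊕ ℤ :=
  if Cg Lb (Pb.m (kb + j)) (kb + j + 1) then Sum.inl 0 else Sum.inr (Pb.m y)

open Classical in
/-- vertex map -/
noncomputable def vmap (Lt : ℕ) : ℤ ⊕ ℤ → ℤ ⊕ ℤ
  | Sum.inl x =>
    if Cg Lt x (kt + j) then gv kb Pb j (kb + j + Lb * ((x - (kt + j)) / Lt))
    else if Cg Lt x (kt + j + 1) then gv kb Pb j (kb + j + 1 + Lb * ((x - (kt + j + 1)) / Lt))
    else Sum.inl x
  | Sum.inr y =>
    if Cg Lb y (kb + j) ∨ Cg Lb y (kb + j + 1) then gv kb Pb j y else Sum.inr y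

lemma vmap_top0 (hL : 2 ≤ Lt) (a : ℤ) :
    vmap kt kb Pb j Lt (Sum.inl (kt + j + Lt * a)) = gv kb Pb j (kb + j + Lb * a) := by
  have h : Cg Lt ((kt : ℤ) + j + Lt * a) (kt + j) := by
    unfold Cg; rw [show (kt : ℤ) + j + Lt * a - (kt + j) = Lt * a by ring]; exact dvd_mul_right _ _
  have h2 : ((kt : ℤ) + j + Lt * a - (kt + j)) / Lt = a := by
    rw [show (kt : ℤ) + j + Lt * a - (kt + j) = Lt * a by ring]
    exact Int.mul_ediv_cancel_left _ (by omega)
  simp only [vmap, if_pos h, h2]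

lemma vmap_top1 (hL : 2 ≤ Lt) (a : ℤ) :
    vmap kt kb Pb j Lt (Sum.inl (kt + j + 1 + Lt * a)) = gv kb Pb j (kb + j + 1 + Lb * a) := by
  have h : Cg Lt ((kt : ℤ) + j + 1 + Lt * a) (kt + j + 1) := by
    unfold Cg
    rw [show (kt : ℤ) + j + 1 + Lt * a - (kt + j + 1) = Lt * a by ring]; exact dvd_mul_right _ _
  have h1 : ¬ Cg Lt ((kt : ℤ) + j + 1 + Lt * a) (kt + j) := by
    intro h'
    exact not_Cg_succ hL (kt + j : ℤ) (Cg.trans' (Cg.symm' h') h)
  have h2 : ((kt : ℤ) + j + 1 + Lt * a - (kt + j + 1)) / Lt = a := by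
    rw [show (kt : ℤ) + j + 1 + Lt * a - (kt + j + 1) = Lt * a by ring]
    exact Int.mul_ediv_cancel_left _ (by omega)
  simp only [vmap, if_pos h, if_neg h1, h2]

lemma vmap_top {x : ℤ} (h0 : ¬ Cg Lt x (kt + j)) (h1 : ¬ Cg Lt x (kt + j + 1)) :
    vmap kt kb Pb j Lt (Sum.inl x) = Sum.inl x := by
  simp only [vmap, if_neg h0, if_neg h1]

lemma vmap_bot_g {y : ℤ} (h : Cg Lb y (kb + j) ∨ Cg Lb y (kb + j + 1)) :
    vmap kt kb Pb j Lt (Sum.inr y) = gv kb Pb j y := by
  simp only [vmap, if_pos h]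

lemma vmap_bot {y : ℤ} (h0 : ¬ Cg Lb y (kb + j)) (h1 : ¬ Cg Lb y (kb + j + 1)) :
    vmap kt kb Pb j Lt (Sum.inr y) = Sum.inr y := by
  have h : ¬ (Cg Lb y (kb + j) ∨ Cg Lb y (kb + j + 1)) := by
    rintro (h | h)
    · exact h0 h
    · exact h1 h
  simp only [vmap, if_neg h]

end vmap

lemma exists_mul_of_Cg {L : ℕ} {x y : ℤ} (h : Cg L x y) : ∃ a, x = y + L * a := by
  obtain ⟨a, ha⟩ := h
  exact ⟨a, by linarith⟩

lemma Cg_add_mul {L : ℕ} (y a : ℤ) : Cg L (y + L * a) y := by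
  unfold Cg
  rw [show y + L * a - y = L * a by ring]
  exact dvd_mul_right _ _

/-- the images of two neighbouring special vertices are connected -/
lemma gv_conn (kt kb M : ℕ) (Pt : Pat Lt) (Pb : Pat Lb) (j : ℕ) (a : ℤ) :
    Conn kt kb M Pt (E (kb + j) Pb) (gv kb Pb j (kb + j + Lb * a))
      (gv kb Pb j (kb + j + 1 + Lb * a)) := by
  by_cases hd : Cg Lb (Pb.m (kb + j)) (kb + j + 1)
  · simp only [gv, if_pos hd]
    exact EqvGen.refl _
  · simp only [gv, if_neg hd]
    have hL := Pb.two_le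
    have h0 : Cg Lb ((kb : ℤ) + j + Lb * a) (kb + j) := Cg_add_mul _ _
    have e1 : ¬ Cg Lb (Pb.m (kb + j + Lb * a)) (kb + j) := by
      intro h
      exact Pb.not_dvd_self (kb + j + Lb * a) (Cg.trans' h (Cg.symm' h0))
    have e2 : ¬ Cg Lb (Pb.m (kb + j + Lb * a)) (kb + j + 1) := by
      intro h
      exact hd (Cg.trans' (Cg.m Pb (Cg.symm' h0)) h)
    have e3 : (E (kb + j) Pb).m (Pb.m (kb + j + Lb * a)) = Pb.m (kb + j + 1 + Lb * a) := by
      rw [E.of_m Pb (kb + j) e1 e2 (by rw [Pb.inv]; exact h0), Pb.inv]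
      congr 1; ring
    rw [← e3]
    exact EqvGen.rel _ _ (Step.bot _)

lemma step_map (kt kb M : ℕ) (hLt : Lt = kt + M) (hLb : Lb = kb + M) (Pt : Pat Lt) (Pb : Pat Lb)
    (j : ℕ) (hj : j + 1 < M) {x y : ℤ ⊕ ℤ} (h : Step kt kb M (E (kt + j) Pt) Pb x y) :
    Conn kt kb M Pt (E (kb + j) Pb) (vmap kt kb Pb j Lt x) (vmap kt kb Pb j Lt y) := by
  have hLt2 := Pt.two_le
  have hLb2 := Pb.two_le
  have hrel : ∀ {u v : ℤ ⊕ ℤ}, Step kt kb M Pt (E (kb + j) Pb) u v →
      Conn kt kb M Pt (E (kb + j) Pb) u v := fun h => EqvGen.rel _ _ h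
  have htr : ∀ {u v w : ℤ ⊕ ℤ}, Conn kt kb M Pt (E (kb + j) Pb) u v →
      Conn kt kb M Pt (E (kb + j) Pb) v w → Conn kt kb M Pt (E (kb + j) Pb) u w :=
    fun h h' => EqvGen.trans _ _ _ h h'
  have hsy : ∀ {u v : ℤ ⊕ ℤ}, Conn kt kb M Pt (E (kb + j) Pb) u v →
      Conn kt kb M Pt (E (kb + j) Pb) v u := fun h => EqvGen.symm _ _ h
  have hrf : ∀ (u : ℤ ⊕ ℤ), Conn kt kb M Pt (E (kb + j) Pb) u u := fun u => EqvGen.refl u
  -- the two glued strands `j`, `j+1` on sheet `a` and the small arc at the bottom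
  have hmid : ∀ a : ℤ, Conn kt kb M Pt (E (kb + j) Pb) (Sum.inl (kt + j + Lt * a))
      (Sum.inl (kt + j + 1 + Lt * a)) := by
    intro a
    have g1 := hrel (Step.glue (Pt := Pt) (Pb := E (kb + j) Pb) (kt := kt) (kb := kb) a j
      (by omega))
    have g2 := hrel (Step.glue (Pt := Pt) (Pb := E (kb + j) Pb) (kt := kt) (kb := kb) a (j + 1)
      (by omega))
    have g3 := hrel (Step.bot (kt := kt) (kb := kb) (M := M) (Pt := Pt) (Pb := E (kb + j) Pb)
      (kb + j + Lb * a))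
    rw [E.of_i Pb (kb + j) (Cg_add_mul _ _)] at g3
    push_cast at g2
    rw [show (kt : ℤ) + (j + 1) + Lt * a = kt + j + 1 + Lt * a by ring,
      show (kb : ℤ) + (j + 1) + Lb * a = kb + j + Lb * a + 1 by ring] at g2
    exact htr g1 (htr g3 (hsy g2))
  cases h with
  | top x =>
    rcases tl_cases ((kt : ℤ) + j) hLt2 Pt.m x with ⟨h, e⟩ | ⟨h, e⟩ | ⟨h1, h2, h3, e⟩ |
      ⟨h1, h2, h3, e⟩ | ⟨h1, h2, h3, h4, e⟩
    · -- x ≡ i
      have e' : (E (kt + j) Pt).m x = x + 1 := e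
      rw [e']
      obtain ⟨a, ha⟩ := exists_mul_of_Cg h
      have hx1 : x + 1 = kt + j + 1 + Lt * a := by rw [ha]; ring
      rw [hx1, ha, vmap_top0 kt kb Pb j hLt2 a, vmap_top1 kt kb Pb j hLt2 a]
      exact gv_conn kt kb M Pt Pb j a
    · have e' : (E (kt + j) Pt).m x = x - 1 := e
      rw [e']
      obtain ⟨a, ha⟩ := exists_mul_of_Cg h
      have hx1 : x - 1 = kt + j + Lt * a := by rw [ha]; ring
      rw [hx1, ha, vmap_top0 kt kb Pb j hLt2 a, vmap_top1 kt kb Pb j hLt2 a]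
      exact hsy (gv_conn kt kb M Pt Pb j a)
    · have e' : (E (kt + j) Pt).m x = Pt.m (Pt.m x + 1) := e
      have hn := E.mem_not Pt (kt + j) h1 h2
      rw [e'] at hn
      rw [e', vmap_top kt kb Pb j h1 h2, vmap_top kt kb Pb j hn.1 hn.2]
      obtain ⟨a, ha⟩ := exists_mul_of_Cg h3
      have g1 := hrel (Step.top (kt := kt) (kb := kb) (M := M) (Pt := Pt) (Pb := E (kb + j) Pb) x)
      have g3 := hrel (Step.top (kt := kt) (kb := kb) (M := M) (Pt := Pt) (Pb := E (kb + j) Pb)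
        (Pt.m x + 1))
      have g2 := hmid a
      rw [← ha] at g2
      have e3 : (kt : ℤ) + j + 1 + Lt * a = Pt.m x + 1 := by rw [ha]; ring
      rw [e3] at g2
      exact htr g1 (htr g2 g3)
    · have e' : (E (kt + j) Pt).m x = Pt.m (Pt.m x - 1) := e
      have hn := E.mem_not Pt (kt + j) h1 h2
      rw [e'] at hn
      rw [e', vmap_top kt kb Pb j h1 h2, vmap_top kt kb Pb j hn.1 hn.2]
      obtain ⟨a, ha⟩ := exists_mul_of_Cg h3
      have g1 := hrel (Step.top (kt := kt) (kb := kb) (M := M) (Pt := Pt) (Pb := E (kb + j) Pb) x)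
      have g3 := hrel (Step.top (kt := kt) (kb := kb) (M := M) (Pt := Pt) (Pb := E (kb + j) Pb)
        (Pt.m x - 1))
      have g2 := hsy (hmid a)
      rw [← ha] at g2
      have e3 : (kt : ℤ) + j + Lt * a = Pt.m x - 1 := by rw [ha]; ring
      rw [e3] at g2
      exact htr g1 (htr g2 g3)
    · have e' : (E (kt + j) Pt).m x = Pt.m x := e
      rw [e', vmap_top kt kb Pb j h1 h2, vmap_top kt kb Pb j h3 h4]
      exact hrel (Step.top _)
  | bot y =>
    by_cases hd : Cg Lb (Pb.m (kb + j)) (kb + j + 1)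
    · -- degenerate case
      have hd' : Cg Lb (Pb.m (kb + j + 1)) (kb + j) := by
        have := Cg.m Pb hd
        rw [Pb.inv] at this
        exact Cg.symm' this
      by_cases hy0 : Cg Lb y (kb + j)
      · have hy1 : Cg Lb (Pb.m y) (kb + j + 1) := Cg.trans' (Cg.m Pb hy0) hd
        rw [vmap_bot_g kt kb Pb j (Or.inl hy0), vmap_bot_g kt kb Pb j (Or.inr hy1)]
        simp only [gv, if_pos hd]
        exact hrf _
      by_cases hy1 : Cg Lb y (kb + j + 1)
      · have hy2 : Cg Lb (Pb.m y) (kb + j) := Cg.trans' (Cg.m Pb hy1) hd'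
        rw [vmap_bot_g kt kb Pb j (Or.inr hy1), vmap_bot_g kt kb Pb j (Or.inl hy2)]
        simp only [gv, if_pos hd]
        exact hrf _
      have n0 : ¬ Cg Lb (Pb.m y) (kb + j) := by
        intro h
        apply hy1
        have := Cg.m Pb h
        rw [Pb.inv] at this
        exact Cg.trans' this hd
      have n1 : ¬ Cg Lb (Pb.m y) (kb + j + 1) := by
        intro h
        apply hy0
        have := Cg.m Pb h
        rw [Pb.inv] at this
        exact Cg.trans' this hd'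
      rw [vmap_bot kt kb Pb j hy0 hy1, vmap_bot kt kb Pb j n0 n1,
        ← E.other Pb (kb + j) hy0 hy1 n0 n1]
      exact hrel (Step.bot _)
    · have hn0 : ∀ y : ℤ, Cg Lb y (kb + j) →
          ¬ Cg Lb (Pb.m y) (kb + j) ∧ ¬ Cg Lb (Pb.m y) (kb + j + 1) := by
        intro y hy
        constructor
        · intro h
          exact Pb.not_dvd_self y (Cg.trans' h (Cg.symm' hy))
        · intro h
          exact hd (Cg.trans' (Cg.m Pb (Cg.symm' hy)) h)
      have hn1 : ∀ y : ℤ, Cg Lb y (kb + j + 1) →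
          ¬ Cg Lb (Pb.m y) (kb + j) ∧ ¬ Cg Lb (Pb.m y) (kb + j + 1) := by
        intro y hy
        constructor
        · intro h
          apply hd
          have h1 := Cg.m Pb h
          rw [Pb.inv] at h1
          exact Cg.trans' (Cg.symm' h1) hy
        · intro h
          exact Pb.not_dvd_self y (Cg.trans' h (Cg.symm' hy))
      by_cases hy : Cg Lb y (kb + j) ∨ Cg Lb y (kb + j + 1)
      · have hn : ¬ Cg Lb (Pb.m y) (kb + j) ∧ ¬ Cg Lb (Pb.m y) (kb + j + 1) := by
          rcases hy with hy | hy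
          · exact hn0 y hy
          · exact hn1 y hy
        rw [vmap_bot_g kt kb Pb j hy, vmap_bot kt kb Pb j hn.1 hn.2]
        simp only [gv, if_neg hd]
        exact hrf _
      · by_cases hm : Cg Lb (Pb.m y) (kb + j) ∨ Cg Lb (Pb.m y) (kb + j + 1)
        · rw [vmap_bot_g kt kb Pb j hm, vmap_bot kt kb Pb j (fun h => hy (Or.inl h))
            (fun h => hy (Or.inr h))]
          simp only [gv, if_neg hd, Pb.inv]
          exact hrf _
        · rw [vmap_bot kt kb Pb j (fun h => hy (Or.inl h)) (fun h => hy (Or.inr h)),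
            vmap_bot kt kb Pb j (fun h => hm (Or.inl h)) (fun h => hm (Or.inr h)),
            ← E.other Pb (kb + j) (fun h => hy (Or.inl h)) (fun h => hy (Or.inr h))
              (fun h => hm (Or.inl h)) (fun h => hm (Or.inr h))]
          exact hrel (Step.bot _)
  | glue a j' hj' =>
    rcases eq_or_ne j' j with rfl | h0
    · rw [vmap_top0 kt kb Pb j' hLt2 a, vmap_bot_g kt kb Pb j' (Or.inl (Cg_add_mul _ _))]
      exact hrf _
    rcases eq_or_ne j' (j + 1) with rfl | h1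
    · push_cast
      rw [show (kt : ℤ) + (j + 1) + Lt * a = kt + j + 1 + Lt * a by ring,
        show (kb : ℤ) + (j + 1) + Lb * a = kb + j + 1 + Lb * a by ring,
        vmap_top1 kt kb Pb j hLt2 a, vmap_bot_g kt kb Pb j (Or.inr (Cg_add_mul _ _))]
      exact hrf _
    · have key : ∀ (L k : ℕ) (_ : L = k + M) (c : ℕ) (_ : c < M) (_ : j' ≠ c),
          ¬ Cg L ((k : ℤ) + j' + L * a) (k + c) := by
        intro L k hL c hc hne h
        have h' : Cg L ((k : ℤ) + j') (k + c) :=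
          Cg.trans' (Cg.symm' (Cg_add_mul _ a)) h
        unfold Cg at h'
        rcases dvd_cases h' with h2 | h2 | h2 <;> omega
      have t0 := key Lt kt hLt j (by omega) h0
      have t1 := key Lt kt hLt (j + 1) hj h1
      have b0 := key Lb kb hLb j (by omega) h0
      have b1 := key Lb kb hLb (j + 1) hj h1
      push_cast at t1 b1
      rw [← add_assoc] at t1 b1
      rw [vmap_top kt kb Pb j t0 t1, vmap_bot kt kb Pb j b0 b1]
      exact hrel (Step.glue a j' hj')

lemma leg_adj_aux (kt kb M : ℕ) (hLt : Lt = kt + M) (hLb : Lb = kb + M) (Pt : Pat Lt)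
    (Pb : Pat Lb) (j : ℕ) (hj : j + 1 < M) (h : Leg kt kb M Pt (E (kb + j) Pb)) :
    Leg kt kb M (E (kt + j) Pt) Pb := by
  have hfix : ∀ (u : Fin kt ⊕ Fin kb) (a : ℤ),
      vmap kt kb Pb j Lt (hpos Lt Lb kt kb u a) = hpos Lt Lb kt kb u a := by
    intro u a
    have key : ∀ (L k : ℕ) (_ : L = k + M) (c : ℕ) (_ : c < M) (s : Fin k),
        ¬ Cg L (((s : ℕ) : ℤ) + L * a) (k + c) := by
      intro L k hL c hc s h
      have h' : Cg L ((s : ℕ) : ℤ) (k + c) :=
        Cg.trans' (Cg.symm' (Cg_add_mul _ a)) h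
      unfold Cg at h'
      have hs := s.isLt
      rcases dvd_cases h' with h2 | h2 | h2 <;> omega
    rcases u with s | s
    · have t0 := key Lt kt hLt j (by omega) s
      have t1 := key Lt kt hLt (j + 1) hj s
      push_cast at t1
      rw [← add_assoc] at t1
      exact vmap_top kt kb Pb j t0 t1
    · have t0 := key Lb kb hLb j (by omega) s
      have t1 := key Lb kb hLb (j + 1) hj s
      push_cast at t1
      rw [← add_assoc] at t1
      exact vmap_bot kt kb Pb j t0 t1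
  intro u v a b hc
  apply h u v a b
  have h1 : Conn kt kb M Pt (E (kb + j) Pb) (vmap kt kb Pb j Lt (hpos Lt Lb kt kb u a))
      (vmap kt kb Pb j Lt (hpos Lt Lb kt kb v b)) :=
    eqvGen_map (vmap kt kb Pb j Lt)
      (fun x y hxy => step_map kt kb M hLt hLb Pt Pb j hj hxy) hc
  rwa [hfix, hfix] at h1

/-- LT1: `e_i` can be moved from the top pattern to the bottom pattern at glued strands. -/
theorem leg_adj (kt kb M : ℕ) (hLt : Lt = kt + M) (hLb : Lb = kb + M) (Pt : Pat Lt) (Pb : Pat Lb)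
    (j : ℕ) (hj : j + 1 < M) :
    Leg kt kb M (E (kt + j) Pt) Pb ↔ Leg kt kb M Pt (E (kb + j) Pb) := by
  constructor
  · intro h
    exact leg_swap_of (leg_adj_aux kb kt M hLb hLt Pb Pt j hj (leg_swap_of h))
  · exact leg_adj_aux kt kb M hLt hLb Pt Pb j hj

end H56.EX
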