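import Pool.Agent.H96.EX.SMb

/-!
# Interface for `H56.EX.SM`

`SM_S` : `SM M c z = S 4 M q (q²) c z` for pairwise distinct `z`;
`SM_zero`, `SM_symm_c`, `SM_symm_z`, `SM_poly`, `SM_rec1`, `SM_rec2`, `SM_unique`.
For all values of the parameters (also coinciding strands) use `S 4 M q (q²)` of `SMb.lean`.
-/

set_option autoImplicit false

namespace Pool.Agent.H96.EX

open Finset H56.EX

/-- four legs: the polynomial `S` for `SM` -/
noncomputable def S4 (M : ℕ) (c : Fin 4 → ℂ) (z : ℕ → ℂ) : ℂ :=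
  S 4 M H56.EX.q (H56.EX.q ^ 2) c z

theorem SM_S {M : ℕ} (c : Fin 4 → ℂ) (z : ℕ → ℂ)
    (hz : ∀ i j : Fin M, i ≠ j → z i ≠ z j) : SM M c z = S4 M c z := by
  rw [SM_eq_SGen, S4, S_eq_SGen _ _ _ _ hz]

theorem SM_zero (c : Fin 4 → ℂ) (z : ℕ → ℂ) : SM 0 c z = 1 := by
  rw [SM_S c z (fun i => i.elim0), S4, S_zero]

theorem SM_symm_c {M : ℕ} (c : Fin 4 → ℂ) (z : ℕ → ℂ) (σ : Equiv.Perm (Fin 4)) :
    SM M (fun l => c (σ l)) z = SM M c z := SGen_symm_c _ _ c z σ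

theorem SM_symm_z {M : ℕ} (c : Fin 4 → ℂ) {z z' : ℕ → ℂ} (σ : Equiv.Perm (Fin M))
    (h : ∀ j : Fin M, z' j = z (σ j)) : SM M c z' = SM M c z := SGen_symm_z _ _ c σ h

theorem SM_congr {M : ℕ} (c : Fin 4 → ℂ) {z z' : ℕ → ℂ} (h : ∀ j : Fin M, z' j = z j) :
    SM M c z' = SM M c z := SGen_congr _ _ c h

/-- degree `≤ M` in each leg parameter (`SM`, pairwise distinct strands) -/
theorem SM_poly {M : ℕ} (c : Fin 4 → ℂ) (z : ℕ → ℂ) (l : Fin 4)
    (hz : ∀ i j : Fin M, i ≠ j → z i ≠ z j) :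
    ∃ p : Polynomial ℂ, p.natDegree ≤ M ∧ ∀ t, p.eval t = SM M (Function.update c l t) z := by
  obtain ⟨p, hp, h⟩ := S_poly (M := M) H56.EX.q (H56.EX.q ^ 2) c z l
  refine ⟨p, hp, fun t => ?_⟩
  rw [h, SM_S _ _ hz, S4]

/-- degree `≤ M` in each leg parameter -/
theorem S4_poly {M : ℕ} (c : Fin 4 → ℂ) (z : ℕ → ℂ) (l : Fin 4) :
    ∃ p : Polynomial ℂ, p.natDegree ≤ M ∧ ∀ t, p.eval t = S4 M (Function.update c l t) z :=
  S_poly (M := M) H56.EX.q (H56.EX.q ^ 2) c z l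

theorem S4_zero (c : Fin 4 → ℂ) (z : ℕ → ℂ) : S4 0 c z = 1 := S_zero _ _ _ _

theorem S4_symm_c {M : ℕ} (c : Fin 4 → ℂ) (z : ℕ → ℂ) (σ : Equiv.Perm (Fin 4)) :
    S4 M (fun l => c (σ l)) z = S4 M c z := S_symm_c _ _ c z σ

theorem S4_symm_z {M : ℕ} (c : Fin 4 → ℂ) {z z' : ℕ → ℂ} (σ : Equiv.Perm (Fin M))
    (h : ∀ j : Fin M, z' j = z (σ j)) : S4 M c z' = S4 M c z := S_symm_z _ _ c σ h

/-- recursion at `c l = q² z j`, all values of the parameters -/
theorem S4_rec1 {M : ℕ} (c : Fin 4 → ℂ) (z : ℕ → ℂ) (l : Fin 4) (j : Fin (M + 1)) :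
    S4 (M + 1) (Function.update c l (H56.EX.q ^ 2 * z j)) z =
      (1 - H56.EX.q ^ 2) * z j * (∏ i ∈ univ.erase l, (c i - H56.EX.q * z j)) *
        (∏ i : Fin M, (del j z i - H56.EX.q * z j) ^ 2) *
        S4 M (Function.update c l (z j)) (del j z) := by
  have h := S_rec1 H56.EX.q (H56.EX.q ^ 2) c z l j
  have e : H56.EX.q * ((H56.EX.q ^ 2 - H56.EX.q) * z j) = (1 - H56.EX.q ^ 2) * z j := by
    linear_combination z j * H56.EX.q_cube
  rw [e] at h
  exact h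

/-- recursion at `c l = q z j`, all values of the parameters -/
theorem S4_rec2 {M : ℕ} (c : Fin 4 → ℂ) (z : ℕ → ℂ) (l : Fin 4) (j : Fin (M + 1)) :
    S4 (M + 1) (Function.update c l (H56.EX.q * z j)) z =
      (1 - H56.EX.q) * z j * (∏ i ∈ univ.erase l, (c i - H56.EX.q ^ 2 * z j)) *
        (∏ i : Fin M, (del j z i - H56.EX.q ^ 2 * z j) ^ 2) *
        S4 M (Function.update c l (z j)) (del j z) := by
  have h := S_rec2 H56.EX.q (H56.EX.q ^ 2) c z l j
  have e : H56.EX.q ^ 2 * ((H56.EX.q - H56.EX.q ^ 2) * z j) = (1 - H56.EX.q) * z j := by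
    linear_combination (1 - H56.EX.q) * z j * H56.EX.q_cube
  rw [e] at h
  exact h

lemma del_ne {M : ℕ} (j : Fin (M + 1)) (z : ℕ → ℂ)
    (hz : ∀ i j : Fin (M + 1), i ≠ j → z i ≠ z j) :
    ∀ i i' : Fin M, i ≠ i' → del j z i ≠ del j z i' := by
  intro i i' hne
  rw [del_succAbove, del_succAbove]
  exact hz _ _ (fun h => hne ((Fin.succAboveEmb j).injective h))

/-- recursion at `c l = q² z j` -/
theorem SM_rec1 {M : ℕ} (c : Fin 4 → ℂ) (z : ℕ → ℂ) (l : Fin 4) (j : Fin (M + 1))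
    (hz : ∀ i j : Fin (M + 1), i ≠ j → z i ≠ z j) :
    SM (M + 1) (Function.update c l (H56.EX.q ^ 2 * z j)) z =
      (1 - H56.EX.q ^ 2) * z j * (∏ i ∈ univ.erase l, (c i - H56.EX.q * z j)) *
        (∏ i : Fin M, (del j z i - H56.EX.q * z j) ^ 2) *
        SM M (Function.update c l (z j)) (del j z) := by
  rw [SM_S _ _ hz, SM_S _ _ (del_ne j z hz)]
  exact S4_rec1 c z l j

/-- recursion at `c l = q z j` -/
theorem SM_rec2 {M : ℕ} (c : Fin 4 → ℂ) (z : ℕ → ℂ) (l : Fin 4) (j : Fin (M + 1))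
    (hz : ∀ i j : Fin (M + 1), i ≠ j → z i ≠ z j) :
    SM (M + 1) (Function.update c l (H56.EX.q * z j)) z =
      (1 - H56.EX.q) * z j * (∏ i ∈ univ.erase l, (c i - H56.EX.q ^ 2 * z j)) *
        (∏ i : Fin M, (del j z i - H56.EX.q ^ 2 * z j) ^ 2) *
        SM M (Function.update c l (z j)) (del j z) := by
  rw [SM_S _ _ hz, SM_S _ _ (del_ne j z hz)]
  exact S4_rec2 c z l j

/-- The points `q z_j`, `q² z_j` are distinct when the cubes are distinct and nonzero. -/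
lemma points_card {M : ℕ} (z : ℕ → ℂ) (hz : ∀ i j : Fin M, i ≠ j → (z i) ^ 3 ≠ (z j) ^ 3)
    (h0 : ∀ j : Fin M, z j ≠ 0) :
    ((univ.image fun j : Fin M => H56.EX.q * z j) ∪
      (univ.image fun j : Fin M => H56.EX.q ^ 2 * z j)).card = 2 * M := by
  have hq := H56.EX.q_ne_zero
  have c3 : ∀ a : ℂ, (H56.EX.q * a) ^ 3 = a ^ 3 := by
    intro a; linear_combination a ^ 3 * H56.EX.q_cube
  have c6 : ∀ a : ℂ, (H56.EX.q ^ 2 * a) ^ 3 = a ^ 3 := by
    intro a; linear_combination a ^ 3 * (H56.EX.q ^ 3 + 1) * H56.EX.q_cube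
  have hd : Disjoint (univ.image fun j : Fin M => H56.EX.q * z j)
      (univ.image fun j : Fin M => H56.EX.q ^ 2 * z j) := by
    rw [Finset.disjoint_left]
    intro y hy hy'
    rw [mem_image] at hy hy'
    obtain ⟨a, _, rfl⟩ := hy
    obtain ⟨b, _, hab⟩ := hy'
    have h3 : (z b) ^ 3 = (z a) ^ 3 := by rw [← c3 (z a), ← c6 (z b), hab]
    have hba : b = a := by
      by_contra hne
      exact hz b a hne h3
    subst hba
    have h4 : (H56.EX.q ^ 2 - H56.EX.q) * z b = 0 := by linear_combination hab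
    rcases mul_eq_zero.1 h4 with h5 | h5
    · exact q_ne_q_sq (sub_eq_zero.1 h5).symm
    · exact h0 b h5
  rw [Finset.card_union_of_disjoint hd, Finset.card_image_of_injective,
    Finset.card_image_of_injective]
  · simp; omega
  · intro a b hab
    by_contra hne
    exact hz a b hne (by rw [← c6 (z a), ← c6 (z b)]; exact congrArg (fun x => x ^ 3) hab)
  · intro a b hab
    by_contra hne
    exact hz a b hne (by rw [← c3 (z a), ← c3 (z b)]; exact congrArg (fun x => x ^ 3) hab)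

/-- Uniqueness: a polynomial of degree `≤ M` (`M ≥ 1`) which takes the values of `SM` at the
`2M` points `q z_j`, `q² z_j` is `SM`. -/
theorem SM_unique {M : ℕ} (hM : 1 ≤ M) (c : Fin 4 → ℂ) (z : ℕ → ℂ) (l : Fin 4)
    (hz : ∀ i j : Fin M, i ≠ j → (z i) ^ 3 ≠ (z j) ^ 3) (h0 : ∀ j : Fin M, z j ≠ 0)
    (P : Polynomial ℂ) (hP : P.natDegree ≤ M)
    (h1 : ∀ j : Fin M, P.eval (H56.EX.q * z j) = SM M (Function.update c l (H56.EX.q * z j)) z)
    (h2 : ∀ j : Fin M, P.eval (H56.EX.q ^ 2 * z j) =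
      SM M (Function.update c l (H56.EX.q ^ 2 * z j)) z) (x : ℂ) :
    P.eval x = SM M (Function.update c l x) z := by
  obtain ⟨p, hp, hpe⟩ := SM_poly c z l (ne_of_cubes hz)
  rw [← hpe]
  have : P = p := by
    apply Polynomial.eq_of_natDegree_lt_card_of_eval_eq' P p
      ((univ.image fun j : Fin M => H56.EX.q * z j) ∪
      (univ.image fun j : Fin M => H56.EX.q ^ 2 * z j))
    · intro y hy
      rw [mem_union, mem_image, mem_image] at hy
      rcases hy with ⟨a, _, rfl⟩ | ⟨a, _, rfl⟩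
      · rw [h1, hpe]
      · rw [h2, hpe]
    · rw [points_card z hz h0]
      rw [max_lt_iff]; omega
  rw [this]

end Pool.Agent.H96.EX
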