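import Pool.Agent.H56.EX.Defs
import Pool.Agent.H96.EX.SSum

/-!
# The explicit sum in the form of the leg functions, for any number of legs

`SGen k M u v c z` is the sum over `ε ∈ {q, q²}^M`; `SM M = SGen 4 M q (q²)`.
Recursions, symmetry in `c` and `z`, degree in each `c l`.
-/

set_option autoImplicit false

namespace Pool.Agent.H96.EX

open Finset H56.EX

/-- the two values of `ε` -/
noncomputable def ev (b : Bool) : ℂ := if b then H56.EX.q else H56.EX.q ^ 2

/-- the explicit sum for `k` legs, with weights `u` (for `ε = q`) and `v` (for `ε = q²`) -/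
noncomputable def SGen (k M : ℕ) (u v : ℂ) (c : Fin k → ℂ) (z : ℕ → ℂ) : ℂ :=
  ∑ ε : Fin M → Bool,
    (∏ j : Fin M, (if ε j then u else v) * ∏ l : Fin k, (c l - ev (ε j) * z j)) *
    ∏ j : Fin M, ∏ k : Fin M, if j < k then
      fpair (ev (ε j)) (ev (ε k)) (z j) (z k) else 1

lemma SM_eq_SGen (M : ℕ) (c : Fin 4 → ℂ) (z : ℕ → ℂ) :
    SM M c z = SGen 4 M H56.EX.q (H56.EX.q ^ 2) c z := rfl

/-- the sequence with the `j`-th entry deleted -/
def del (j : ℕ) (z : ℕ → ℂ) : ℕ → ℂ := fun n => if n < j then z n else z (n + 1)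

lemma del_succAbove {M : ℕ} (j : Fin (M + 1)) (z : ℕ → ℂ) (i : Fin M) :
    del j z i = z (j.succAbove i) := by
  unfold del
  rcases lt_or_ge (i : ℕ) (j : ℕ) with h | h
  · rw [if_pos h, Fin.succAbove_of_castSucc_lt]
    · rfl
    · exact h
  · rw [if_neg (not_lt.2 h), Fin.succAbove_of_le_castSucc]
    · rfl
    · exact h

/-- the product of the symmetric pair factors -/
noncomputable def prz (M : ℕ) (z : ℕ → ℂ) : ℂ :=
  ∏ j : Fin M, ∏ k : Fin M, if j < k then (z j) ^ 2 + z j * z k + (z k) ^ 2 else 1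

lemma q_ne_q_sq : H56.EX.q ≠ H56.EX.q ^ 2 := by
  intro h
  apply H56.EX.q_ne_one
  have h0 := H56.EX.q_ne_zero
  have : H56.EX.q * (H56.EX.q - 1) = 0 := by linear_combination -h
  rcases mul_eq_zero.1 this with h1 | h1
  · exact absurd h1 h0
  · linear_combination h1

lemma fpair_same (b : Bool) (z w : ℂ) : fpair (ev b) (ev b) z w = z ^ 2 + z * w + w ^ 2 := by
  simp [fpair]

lemma fpair_tf (z w : ℂ) : fpair (ev true) (ev false) z w =
    (w - H56.EX.q * z) ^ 3 / (w - z) := by
  have h : ev true ≠ ev false := q_ne_q_sq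
  simp only [fpair, if_neg h]
  simp [ev]

lemma fpair_ft (z w : ℂ) : fpair (ev false) (ev true) z w =
    (z - H56.EX.q * w) ^ 3 / (z - w) := by
  have h : ev false ≠ ev true := q_ne_q_sq.symm
  simp only [fpair, if_neg h]
  rw [if_neg]
  simp only [ev]
  exact fun h' => q_ne_q_sq h'.symm

lemma fpair_symm (b b' : Bool) (z w : ℂ) :
    fpair (ev b) (ev b') z w = fpair (ev b') (ev b) w z := by
  rcases b with _ | _ <;> rcases b' with _ | _
  · rw [fpair_same, fpair_same]; ring
  · rw [fpair_ft, fpair_tf]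
  · rw [fpair_ft, fpair_tf]
  · rw [fpair_same, fpair_same]; ring

lemma factor_sq (z w : ℂ) : z ^ 2 + z * w + w ^ 2 =
    (w - H56.EX.q * z) * (w - H56.EX.q ^ 2 * z) := by
  linear_combination (z * w) * H56.EX.q_sq - z ^ 2 * H56.EX.q_cube

lemma cube_factor (z w : ℂ) : w ^ 3 - z ^ 3 =
    (w - z) * ((w - H56.EX.q * z) * (w - H56.EX.q ^ 2 * z)) := by
  rw [← factor_sq]; ring

lemma ne_of_cube {z w : ℂ} (h : z ^ 3 ≠ w ^ 3) :
    w - z ≠ 0 ∧ w - H56.EX.q * z ≠ 0 ∧ w - H56.EX.q ^ 2 * z ≠ 0 := by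
  have h1 : (w - z) * ((w - H56.EX.q * z) * (w - H56.EX.q ^ 2 * z)) ≠ 0 := by
    rw [← cube_factor]
    exact sub_ne_zero.2 h.symm
  exact ⟨left_ne_zero_of_mul h1, left_ne_zero_of_mul (right_ne_zero_of_mul h1),
    right_ne_zero_of_mul (right_ne_zero_of_mul h1)⟩

lemma fpair_gg_tf {z w : ℂ} (h : z ^ 3 ≠ w ^ 3) : fpair (ev true) (ev false) z w =
    gg H56.EX.q z w * (z ^ 2 + z * w + w ^ 2) := by
  obtain ⟨h1, h2, h3⟩ := ne_of_cube h
  rw [fpair_tf, gg, factor_sq]
  field_simp

lemma fpair_gg_ft {z w : ℂ} (h : z ^ 3 ≠ w ^ 3) : fpair (ev false) (ev true) z w =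
    gg H56.EX.q w z * (z ^ 2 + z * w + w ^ 2) := by
  rw [fpair_symm, fpair_gg_tf h.symm]; ring

lemma prod_pairs {M : ℕ} (H : Fin M → Fin M → ℂ) (h1 : ∀ j, H j j = 1) :
    ∏ j, ∏ k, H j k = ∏ j, ∏ k, if j < k then H j k * H k j else 1 := by
  have e1 : (∏ j : Fin M, ∏ k : Fin M, if j < k then H k j else 1) =
      ∏ j : Fin M, ∏ k : Fin M, if k < j then H j k else 1 := by
    rw [Finset.prod_comm]
  have e2 : (∏ j : Fin M, ∏ k : Fin M, if j < k then H j k * H k j else 1) =
      (∏ j : Fin M, ∏ k : Fin M, if j < k then H j k else 1) *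
      ∏ j : Fin M, ∏ k : Fin M, if j < k then H k j else 1 := by
    rw [← Finset.prod_mul_distrib]
    apply Finset.prod_congr rfl
    intro j _
    rw [← Finset.prod_mul_distrib]
    apply Finset.prod_congr rfl
    intro k _
    split_ifs <;> simp
  rw [e2, e1, ← Finset.prod_mul_distrib]
  apply Finset.prod_congr rfl
  intro j _
  rw [← Finset.prod_mul_distrib]
  apply Finset.prod_congr rfl
  intro k _
  rcases lt_trichotomy j k with h | h | h
  · simp [h, not_lt.2 h.le]
  · simp [h, h1]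
  · simp [h, not_lt.2 h.le]

/-- subsets as boolean functions -/
def boolEquiv (M : ℕ) : (Fin M → Bool) ≃ Finset (Fin M) where
  toFun ε := univ.filter fun j => ε j = true
  invFun A := fun j => decide (j ∈ A)
  left_inv ε := by funext j; simp
  right_inv A := by ext j; simp

lemma lg_ofFn {k : ℕ} (c : Fin k → ℂ) (x : ℂ) : lg (List.ofFn c) x = ∏ l, (c l - x) := by
  unfold lg
  rw [List.map_ofFn, List.prod_ofFn]
  rfl

/-- `SGen` is `SG` times the symmetric product, for parameters with distinct cubes. -/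
theorem SGen_eq_SG {k M : ℕ} (u v : ℂ) (c : Fin k → ℂ) (z : ℕ → ℂ)
    (hz : ∀ i j : Fin M, i ≠ j → (z i) ^ 3 ≠ (z j) ^ 3) :
    SGen k M u v c z = prz M z *
      SG H56.EX.q u v univ (List.ofFn c) (fun j : Fin M => z j) := by
  unfold SGen SG
  rw [Finset.powerset_univ, Finset.mul_sum]
  apply Fintype.sum_equiv (boolEquiv M)
  intro ε
  have hA : univ \ (boolEquiv M ε) = univ.filter fun j => ¬ (ε j = true) := by
    ext j; simp [boolEquiv]
  have hA' : (boolEquiv M ε) = univ.filter fun j => ε j = true := rfl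
  rw [hA, hA']
  have e1 : (∏ j : Fin M, (if ε j = true then u else v) *
      ∏ l : Fin k, (c l - ev (ε j) * z j)) =
      (∏ j ∈ univ.filter (fun j => ε j = true), u * lg (List.ofFn c) (H56.EX.q * z j)) *
      ∏ j ∈ univ.filter (fun j => ¬ (ε j = true)), v * lg (List.ofFn c) (H56.EX.q ^ 2 * z j) := by
    rw [← Finset.prod_filter_mul_prod_filter_not univ (fun j => ε j = true)]
    congr 1
    · apply Finset.prod_congr rfl
      intro j hj
      rw [mem_filter] at hj
      rw [lg_ofFn, if_pos hj.2, hj.2]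
      simp [ev]
    · apply Finset.prod_congr rfl
      intro j hj
      rw [mem_filter] at hj
      have : ε j = false := by simpa using hj.2
      rw [lg_ofFn, if_neg hj.2, this]
      simp [ev]
  have e2 : (∏ j ∈ univ.filter (fun j => ε j = true), ∏ k ∈ univ.filter (fun j => ¬ (ε j = true)),
      gg H56.EX.q (z j) (z k)) =
      ∏ j : Fin M, ∏ k : Fin M, if j < k then
        (if ε j = true ∧ ¬ (ε k = true) then gg H56.EX.q (z j) (z k) else 1) *
        (if ε k = true ∧ ¬ (ε j = true) then gg H56.EX.q (z k) (z j) else 1) else 1 := by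
    rw [← prod_pairs (fun j k => if ε j = true ∧ ¬ (ε k = true) then
      gg H56.EX.q (z j) (z k) else 1)]
    · rw [Finset.prod_filter]
      apply Finset.prod_congr rfl
      intro j _
      rw [Finset.prod_filter]
      by_cases hj : ε j = true
      · simp [hj]
      · simp [hj]
    · intro j
      simp
  rw [e1, e2]
  have e3 : (∏ j : Fin M, ∏ k : Fin M, if j < k then
      fpair (ev (ε j)) (ev (ε k)) (z j) (z k) else 1) = prz M z *
      ∏ j : Fin M, ∏ k : Fin M, if j < k then
        (if ε j = true ∧ ¬ (ε k = true) then gg H56.EX.q (z j) (z k) else 1) *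
        (if ε k = true ∧ ¬ (ε j = true) then gg H56.EX.q (z k) (z j) else 1) else 1 := by
    unfold prz
    rw [← Finset.prod_mul_distrib]
    apply Finset.prod_congr rfl
    intro j _
    rw [← Finset.prod_mul_distrib]
    apply Finset.prod_congr rfl
    intro k _
    by_cases hjk : j < k
    · rw [if_pos hjk, if_pos hjk, if_pos hjk]
      have hc := hz j k hjk.ne
      rcases hj : ε j with _ | _ <;> rcases hk : ε k with _ | _
      · rw [fpair_same]; simp
      · rw [fpair_gg_ft hc]; simp; ring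
      · rw [fpair_gg_tf hc]; simp; ring
      · rw [fpair_same]; simp
    · simp [hjk]
  rw [e3]
  ring

/-- reindexing -/
lemma SG_map {K ι ι' : Type*} [Field K] [DecidableEq ι] [DecidableEq ι'] (e : ι ↪ ι')
    (q u v : K) (s : Finset ι) (c : List K) (z : ι' → K) :
    SG q u v (s.map e) c z = SG q u v s c (fun i => z (e i)) := by
  unfold SG
  symm
  apply Finset.sum_bij (fun A _ => A.map e)
  · intro A hA
    rw [mem_powerset] at hA ⊢
    exact Finset.map_subset_map.2 hA
  · intro A _ B _ h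
    exact Finset.map_injective e h
  · intro B hB
    rw [mem_powerset] at hB
    refine ⟨s.filter (fun i => e i ∈ B), by simp, ?_⟩
    ext x
    rw [mem_map]
    constructor
    · rintro ⟨a, ha, rfl⟩
      exact (mem_filter.1 ha).2
    · intro hx
      obtain ⟨a, ha, rfl⟩ := mem_map.1 (hB hx)
      exact ⟨a, mem_filter.2 ⟨ha, hx⟩, rfl⟩
  · intro A _
    rw [← Finset.map_sdiff, Finset.prod_map, Finset.prod_map, Finset.prod_map]
    congr 1
    apply Finset.prod_congr rfl
    intro j _
    rw [Finset.prod_map]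

lemma SG_congr_lg {K ι : Type*} [Field K] [DecidableEq ι] {q u v : K} {s : Finset ι}
    {c c' : List K} (h : ∀ x, lg c x = lg c' x) (z : ι → K) :
    SG q u v s c z = SG q u v s c' z := by
  unfold SG
  simp only [h]

lemma univ_erase_succAbove {M : ℕ} (j : Fin (M + 1)) :
    (univ : Finset (Fin (M + 1))).erase j = univ.map j.succAboveEmb := by
  ext i
  simp only [mem_erase, mem_univ, and_true, mem_map, true_and, Fin.succAboveEmb_apply]
  rw [Fin.exists_succAbove_eq_iff]

lemma prz_succ {M : ℕ} (j : Fin (M + 1)) (z : ℕ → ℂ) :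
    prz (M + 1) z = (∏ i : Fin M, ((del j z i) ^ 2 + del j z i * z j + (z j) ^ 2)) *
      prz M (del j z) := by
  unfold prz
  rw [Fin.prod_univ_succAbove _ j, Fin.prod_univ_succAbove _ j]
  simp only [lt_irrefl, if_false, one_mul]
  have e : ∀ i : Fin M, (∏ k : Fin (M + 1), if j.succAbove i < k then
      (z (j.succAbove i)) ^ 2 + z (j.succAbove i) * z k + (z k) ^ 2 else 1) =
      (if j.succAbove i < j then (z (j.succAbove i)) ^ 2 + z (j.succAbove i) * z j +
        (z j) ^ 2 else 1) * ∏ k : Fin M, if i < k then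
          (del j z i) ^ 2 + del j z i * del j z k + (del j z k) ^ 2 else 1 := by
    intro i
    rw [Fin.prod_univ_succAbove _ j]
    congr 1
    apply Finset.prod_congr rfl
    intro k _
    rw [del_succAbove, del_succAbove]
    simp only [(Fin.strictMono_succAbove j).lt_iff_lt]
  rw [Finset.prod_congr rfl (fun i _ => e i), Finset.prod_mul_distrib, ← mul_assoc,
    ← Finset.prod_mul_distrib]
  congr 1
  apply Finset.prod_congr rfl
  intro i _
  rw [del_succAbove]
  rcases lt_trichotomy j (j.succAbove i) with h | h | h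
  · rw [if_pos h, if_neg (not_lt.2 h.le)]; ring
  · exact absurd h.symm (Fin.succAbove_ne j i)
  · rw [if_pos h, if_neg (not_lt.2 h.le)]; ring

lemma lg_update {k : ℕ} (c : Fin k → ℂ) (l : Fin k) (t x : ℂ) :
    lg (List.ofFn (Function.update c l t)) x =
      lg (t :: ((univ.erase l).toList.map c)) x := by
  rw [lg_ofFn, lg_cons, ← Finset.mul_prod_erase univ _ (mem_univ l), Function.update_self]
  congr 1
  unfold lg
  rw [List.map_map, Finset.prod_map_toList]
  apply Finset.prod_congr rfl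
  intro i hi
  rw [mem_erase] at hi
  rw [Function.update_of_ne hi.1]
  rfl

lemma lg_erase {k : ℕ} (c : Fin k → ℂ) (l : Fin k) (x : ℂ) :
    lg ((univ.erase l).toList.map c) x = ∏ i ∈ univ.erase l, (c i - x) := by
  unfold lg
  rw [List.map_map, Finset.prod_map_toList]
  rfl

lemma cubes_del {M : ℕ} (j : Fin (M + 1)) (z : ℕ → ℂ)
    (hz : ∀ i j : Fin (M + 1), i ≠ j → (z i) ^ 3 ≠ (z j) ^ 3) :
    ∀ i i' : Fin M, i ≠ i' → (del j z i) ^ 3 ≠ (del j z i') ^ 3 := by
  intro i i' hne
  rw [del_succAbove, del_succAbove]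
  exact hz _ _ (fun h => hne ((Fin.succAboveEmb j).injective h))

/-- recursion of `SGen` at `c l = q² z j` -/
theorem SGen_rec1 {k M : ℕ} (u v : ℂ) (c : Fin k → ℂ) (z : ℕ → ℂ) (l : Fin k)
    (j : Fin (M + 1)) (hz : ∀ i j : Fin (M + 1), i ≠ j → (z i) ^ 3 ≠ (z j) ^ 3) :
    SGen k (M + 1) u v (Function.update c l (H56.EX.q ^ 2 * z j)) z =
      u * ((H56.EX.q ^ 2 - H56.EX.q) * z j) * (∏ i ∈ univ.erase l, (c i - H56.EX.q * z j)) *
        (∏ i : Fin M, (del j z i - H56.EX.q * z j) ^ 2) *
        SGen k M u v (Function.update c l (z j)) (del j z) := by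
  have hrec := SG_rec1 (u := u) (v := v) H56.EX.q_sq (mem_univ j) ((univ.erase l).toList.map c)
    (fun i : Fin (M + 1) => z i) ?_
  · rw [SGen_eq_SG _ _ _ _ hz, SGen_eq_SG _ _ _ _ (cubes_del j z hz),
      SG_congr_lg (lg_update c l _), SG_congr_lg (lg_update c l _), prz_succ j z, hrec, lg_erase, univ_erase_succAbove, SG_map, Finset.prod_map]
    have e1 : (fun i : Fin M => z (j.succAboveEmb i)) = fun i : Fin M => del j z i := by
      funext i
      rw [del_succAbove]; rfl
    have e2 : (∏ x : Fin M, (z ((j.succAboveEmb x : Fin (M + 1)) : ℕ) - H56.EX.q * z j) /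
        (z ((j.succAboveEmb x : Fin (M + 1)) : ℕ) - H56.EX.q ^ 2 * z j)) =
        ∏ i : Fin M, (del j z i - H56.EX.q * z j) / (del j z i - H56.EX.q ^ 2 * z j) := by
      apply Finset.prod_congr rfl
      intro i _
      rw [del_succAbove]; rfl
    rw [e1, e2]
    have e3 : (∏ i : Fin M, ((del j z i) ^ 2 + del j z i * z j + (z j) ^ 2)) *
        (∏ i : Fin M, (del j z i - H56.EX.q * z j) / (del j z i - H56.EX.q ^ 2 * z j)) =
        ∏ i : Fin M, (del j z i - H56.EX.q * z j) ^ 2 := by
      rw [← Finset.prod_mul_distrib]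
      apply Finset.prod_congr rfl
      intro i _
      have hne : (z j) ^ 3 ≠ (del j z i) ^ 3 := by
        rw [del_succAbove]
        exact hz _ _ (Fin.succAbove_ne j i).symm
      obtain ⟨h1, h2, h3⟩ := ne_of_cube hne
      have h4 : (del j z i) ^ 2 + del j z i * z j + (z j) ^ 2 =
          (del j z i - H56.EX.q * z j) * (del j z i - H56.EX.q ^ 2 * z j) := by
        rw [← factor_sq]; ring
      rw [h4]
      field_simp
    rw [← e3]
    ring
  · intro i hi
    rw [mem_erase] at hi
    obtain ⟨h1, h2, h3⟩ := ne_of_cube (hz j i hi.1.symm)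
    exact ⟨sub_ne_zero.1 h1, sub_ne_zero.1 h3⟩

/-- recursion of `SGen` at `c l = q z j` -/
theorem SGen_rec2 {k M : ℕ} (u v : ℂ) (c : Fin k → ℂ) (z : ℕ → ℂ) (l : Fin k)
    (j : Fin (M + 1)) (hz : ∀ i j : Fin (M + 1), i ≠ j → (z i) ^ 3 ≠ (z j) ^ 3) :
    SGen k (M + 1) u v (Function.update c l (H56.EX.q * z j)) z =
      v * ((H56.EX.q - H56.EX.q ^ 2) * z j) *
        (∏ i ∈ univ.erase l, (c i - H56.EX.q ^ 2 * z j)) *
        (∏ i : Fin M, (del j z i - H56.EX.q ^ 2 * z j) ^ 2) *
        SGen k M u v (Function.update c l (z j)) (del j z) := by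
  have hrec := SG_rec2 (u := u) (v := v) H56.EX.q_sq (mem_univ j) ((univ.erase l).toList.map c)
    (fun i : Fin (M + 1) => z i) ?_
  · rw [SGen_eq_SG _ _ _ _ hz, SGen_eq_SG _ _ _ _ (cubes_del j z hz),
      SG_congr_lg (lg_update c l _), SG_congr_lg (lg_update c l _), prz_succ j z, hrec, lg_erase, univ_erase_succAbove, SG_map, Finset.prod_map]
    have e1 : (fun i : Fin M => z (j.succAboveEmb i)) = fun i : Fin M => del j z i := by
      funext i
      rw [del_succAbove]; rfl
    have e2 : (∏ x : Fin M, (z ((j.succAboveEmb x : Fin (M + 1)) : ℕ) - H56.EX.q ^ 2 * z j) /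
        (z ((j.succAboveEmb x : Fin (M + 1)) : ℕ) - H56.EX.q * z j)) =
        ∏ i : Fin M, (del j z i - H56.EX.q ^ 2 * z j) / (del j z i - H56.EX.q * z j) := by
      apply Finset.prod_congr rfl
      intro i _
      rw [del_succAbove]; rfl
    rw [e1, e2]
    have e3 : (∏ i : Fin M, ((del j z i) ^ 2 + del j z i * z j + (z j) ^ 2)) *
        (∏ i : Fin M, (del j z i - H56.EX.q ^ 2 * z j) / (del j z i - H56.EX.q * z j)) =
        ∏ i : Fin M, (del j z i - H56.EX.q ^ 2 * z j) ^ 2 := by
      rw [← Finset.prod_mul_distrib]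
      apply Finset.prod_congr rfl
      intro i _
      have hne : (z j) ^ 3 ≠ (del j z i) ^ 3 := by
        rw [del_succAbove]
        exact hz _ _ (Fin.succAbove_ne j i).symm
      obtain ⟨h1, h2, h3⟩ := ne_of_cube hne
      have h4 : (del j z i) ^ 2 + del j z i * z j + (z j) ^ 2 =
          (del j z i - H56.EX.q * z j) * (del j z i - H56.EX.q ^ 2 * z j) := by
        rw [← factor_sq]; ring
      rw [h4]
      field_simp
    rw [← e3]
    ring
  · intro i hi
    rw [mem_erase] at hi
    obtain ⟨h1, h2, h3⟩ := ne_of_cube (hz j i hi.1.symm)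
    exact ⟨sub_ne_zero.1 h1, sub_ne_zero.1 h2⟩

end Pool.Agent.H96.EX
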