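import Pool.Agent.H96.EX.SMa

/-!
# The polynomial `S` extending the explicit sum `SGen` to all values of the parameters

* `SPoly k M u v : MvPolynomial (Fin k ⊕ Fin M) ℂ`, `S k M u v c z` = its value;
* `S_eq_SGen` : `S = SGen` for pairwise distinct `z`;
* `S_continuous`, `S_symm_c`, `S_symm_z`, `S_poly` (degree `≤ M` in each leg), `S_rec1`, `S_rec2`
  (recursions, for ALL values), `S_zero`.
-/

set_option autoImplicit false

namespace Pool.Agent.H96.EX

open Finset H56.EX

lemma SGen_symm_c {k M : ℕ} (u v : ℂ) (c : Fin k → ℂ) (z : ℕ → ℂ) (σ : Equiv.Perm (Fin k)) :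
    SGen k M u v (fun l => c (σ l)) z = SGen k M u v c z := by
  unfold SGen
  apply Finset.sum_congr rfl
  intro ε _
  congr 1
  apply Finset.prod_congr rfl
  intro j _
  congr 1
  exact Equiv.prod_comp σ (fun l => c l - ev (ε j) * z j)

lemma SGen_congr {k M : ℕ} (u v : ℂ) (c : Fin k → ℂ) {z z' : ℕ → ℂ}
    (h : ∀ j : Fin M, z' j = z j) : SGen k M u v c z' = SGen k M u v c z := by
  unfold SGen
  simp only [h]

lemma prod_lt_eq {M : ℕ} (H : Fin M → Fin M → ℂ) :
    (∏ j, ∏ k, if j < k then H j k else 1) =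
      ∏ p ∈ (univ : Finset (Fin M × Fin M)).filter (fun p => p.1 < p.2), H p.1 p.2 := by
  rw [Finset.prod_filter, ← Finset.univ_product_univ, Finset.prod_product]

lemma prod_lt_perm {M : ℕ} (G : Fin M → Fin M → ℂ) (hG : ∀ j k, G j k = G k j)
    (σ : Equiv.Perm (Fin M)) :
    (∏ j, ∏ k, if j < k then G (σ j) (σ k) else 1) = ∏ j, ∏ k, if j < k then G j k else 1 := by
  rw [prod_lt_eq (fun j k => G (σ j) (σ k)), prod_lt_eq]
  refine Finset.prod_bij' (fun p _ => if σ p.1 < σ p.2 then (σ p.1, σ p.2) else (σ p.2, σ p.1))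
    (fun p _ => if σ.symm p.1 < σ.symm p.2 then (σ.symm p.1, σ.symm p.2)
      else (σ.symm p.2, σ.symm p.1)) ?_ ?_ ?_ ?_ ?_
  · rintro ⟨a, b⟩ h
    simp only [mem_filter, mem_univ, true_and] at h ⊢
    split_ifs with h1
    · exact h1
    · exact lt_of_le_of_ne (not_lt.1 h1) (fun h2 => h.ne' (σ.injective h2))
  · rintro ⟨a, b⟩ h
    simp only [mem_filter, mem_univ, true_and] at h ⊢
    split_ifs with h1
    · exact h1
    · exact lt_of_le_of_ne (not_lt.1 h1) (fun h2 => h.ne' (σ.symm.injective h2))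
  · rintro ⟨a, b⟩ h
    simp only [mem_filter, mem_univ, true_and] at h
    by_cases h1 : σ a < σ b
    · simp [h1, h]
    · simp [h1, not_lt.2 h.le]
  · rintro ⟨a, b⟩ h
    simp only [mem_filter, mem_univ, true_and] at h
    by_cases h1 : σ.symm a < σ.symm b
    · simp [h1, h]
    · simp [h1, not_lt.2 h.le]
  · rintro ⟨a, b⟩ h
    by_cases h1 : σ a < σ b
    · simp [h1]
    · simp only [h1, if_false]
      exact hG _ _

lemma SGen_symm_z {k M : ℕ} (u v : ℂ) (c : Fin k → ℂ) {z z' : ℕ → ℂ} (σ : Equiv.Perm (Fin M))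
    (h : ∀ j : Fin M, z' j = z (σ j)) : SGen k M u v c z' = SGen k M u v c z := by
  unfold SGen
  apply Fintype.sum_equiv (Equiv.arrowCongr σ (Equiv.refl Bool))
  intro ε
  set ε' := (Equiv.arrowCongr σ (Equiv.refl Bool)) ε with hε'
  have he : ∀ j, ε' (σ j) = ε j := by
    intro j; simp [hε', Equiv.arrowCongr]
  congr 1
  · rw [← Equiv.prod_comp σ (fun j => (if ε' j = true then u else v) *
      ∏ l : Fin k, (c l - ev (ε' j) * z j))]
    apply Finset.prod_congr rfl
    intro j _
    rw [he, h]
  · rw [← prod_lt_perm (fun j k => fpair (ev (ε' j)) (ev (ε' k)) (z j) (z k))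
      (fun j k => fpair_symm _ _ _ _) σ]
    apply Finset.prod_congr rfl
    intro j _
    apply Finset.prod_congr rfl
    intro k _
    rw [he, he, h, h]

/-! ### Vandermonde product -/

/-- Vandermonde product -/
noncomputable def dz (M : ℕ) (z : ℕ → ℂ) : ℂ :=
  ∏ j : Fin M, ∏ k : Fin M, if j < k then z k - z j else 1

lemma dz_eq_det (M : ℕ) (z : ℕ → ℂ) :
    dz M z = (Matrix.vandermonde (fun j : Fin M => z j)).det := by
  rw [Matrix.det_vandermonde]
  unfold dz
  apply Finset.prod_congr rfl
  intro j _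
  rw [← Finset.prod_filter]
  apply Finset.prod_congr
  · ext k; simp
  · intro k _; rfl

lemma dz_perm {M : ℕ} {z z' : ℕ → ℂ} (σ : Equiv.Perm (Fin M))
    (h : ∀ j : Fin M, z' j = z (σ j)) : dz M z' = (Equiv.Perm.sign σ : ℤ) * dz M z := by
  rw [dz_eq_det, dz_eq_det, ← Matrix.det_permute]
  congr 1
  ext i j
  simp [Matrix.vandermonde_apply, h]

lemma dz_ne_zero {M : ℕ} {z : ℕ → ℂ} (h : ∀ i j : Fin M, i ≠ j → z i ≠ z j) : dz M z ≠ 0 := by
  unfold dz
  rw [Finset.prod_ne_zero_iff]
  intro j _
  rw [Finset.prod_ne_zero_iff]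
  intro k _
  split_ifs with hjk
  · exact sub_ne_zero.2 (h _ _ hjk.ne')
  · exact one_ne_zero

/-! ### numerators -/

/-- numerator of the pair factor, in any commutative ring -/
def fnum {R : Type*} [CommRing R] (q0 : R) (b b' : Bool) (Z W : R) : R :=
  if b = b' then W ^ 3 - Z ^ 3 else if b = true then (W - q0 * Z) ^ 3 else -(Z - q0 * W) ^ 3

lemma map_fnum {R R' : Type*} [CommRing R] [CommRing R'] (f : R →+* R') (q0 : R) (b b' : Bool)
    (Z W : R) : f (fnum q0 b b' Z W) = fnum (f q0) b b' (f Z) (f W) := by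
  unfold fnum
  split_ifs <;> simp

lemma fnum_eq {b b' : Bool} {z w : ℂ} (h : z ≠ w) :
    fnum H56.EX.q b b' z w = (w - z) * fpair (ev b) (ev b') z w := by
  have h1 : w - z ≠ 0 := sub_ne_zero.2 h.symm
  have h2 : z - w ≠ 0 := sub_ne_zero.2 h
  rcases b with _ | _ <;> rcases b' with _ | _
  · rw [fpair_same]; simp only [fnum, if_true]; ring
  · rw [fpair_ft]; simp only [fnum]
    simp only [Bool.false_eq_true, if_false]
    field_simp
    ring
  · rw [fpair_tf]; simp only [fnum]
    simp only [Bool.true_eq_false, if_false, if_true]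
    field_simp
  · rw [fpair_same]; simp only [fnum, if_true]; ring

open MvPolynomial in
/-- numerator polynomial -/
noncomputable def NPoly (k M : ℕ) (u v : ℂ) : MvPolynomial (Fin k ⊕ Fin M) ℂ :=
  ∑ ε : Fin M → Bool,
    (∏ j : Fin M, C (if ε j then u else v) *
      ∏ l : Fin k, (X (Sum.inl l) - C (ev (ε j)) * X (Sum.inr j))) *
    ∏ j : Fin M, ∏ k : Fin M, if j < k then
      fnum (C H56.EX.q) (ε j) (ε k) (X (Sum.inr j)) (X (Sum.inr k)) else 1

/-- point of evaluation -/
def pt {k M : ℕ} (c : Fin k → ℂ) (z : ℕ → ℂ) : Fin k ⊕ Fin M → ℂ :=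
  Sum.elim c (fun j : Fin M => z j)

open MvPolynomial in
lemma NPoly_eval {k M : ℕ} (u v : ℂ) (c : Fin k → ℂ) (z : ℕ → ℂ) :
    eval (pt c z) (NPoly k M u v) = ∑ ε : Fin M → Bool,
    (∏ j : Fin M, (if ε j then u else v) * ∏ l : Fin k, (c l - ev (ε j) * z j)) *
    ∏ j : Fin M, ∏ k : Fin M, if j < k then
      fnum H56.EX.q (ε j) (ε k) (z j) (z k) else 1 := by
  unfold NPoly
  rw [map_sum]
  apply Finset.sum_congr rfl
  intro ε _
  rw [map_mul, map_prod, map_prod]
  congr 1
  · apply Finset.prod_congr rfl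
    intro j _
    simp [pt]
  · apply Finset.prod_congr rfl
    intro j _
    rw [map_prod]
    apply Finset.prod_congr rfl
    intro k _
    split_ifs with h
    · rw [map_fnum]
      simp [pt]
    · simp

open MvPolynomial in
lemma NPoly_eq {k M : ℕ} (u v : ℂ) (c : Fin k → ℂ) (z : ℕ → ℂ)
    (hz : ∀ i j : Fin M, i ≠ j → z i ≠ z j) :
    eval (pt c z) (NPoly k M u v) = dz M z * SGen k M u v c z := by
  rw [NPoly_eval]
  unfold SGen dz
  rw [Finset.mul_sum]
  apply Finset.sum_congr rfl
  intro ε _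
  have e : (∏ j : Fin M, ∏ k : Fin M, if j < k then
      fnum H56.EX.q (ε j) (ε k) (z j) (z k) else 1) =
      (∏ j : Fin M, ∏ k : Fin M, if j < k then z k - z j else 1) *
      ∏ j : Fin M, ∏ k : Fin M, if j < k then
        fpair (ev (ε j)) (ev (ε k)) (z j) (z k) else 1 := by
    rw [← Finset.prod_mul_distrib]
    apply Finset.prod_congr rfl
    intro j _
    rw [← Finset.prod_mul_distrib]
    apply Finset.prod_congr rfl
    intro k _
    split_ifs with h
    · exact fnum_eq (hz j k h.ne)
    · ring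
  rw [e]
  ring

/-! ### continuity along a line -/

lemma cubes_finite {M : ℕ} (z : ℕ → ℂ) :
    {t : ℂ | ¬ ∀ i j : Fin M, i ≠ j →
      (z i + t * ((i : ℕ) + 1)) ^ 3 ≠ (z j + t * ((j : ℕ) + 1)) ^ 3}.Finite := by
  have key : ∀ i j : Fin M, i ≠ j →
      {t : ℂ | (z i + t * ((i : ℕ) + 1)) ^ 3 = (z j + t * ((j : ℕ) + 1)) ^ 3}.Finite := by
    intro i j hij
    set p : Polynomial ℂ := (Polynomial.C (z i) + Polynomial.X * Polynomial.C ((i : ℕ) + 1 : ℂ)) ^ 3 -
      (Polynomial.C (z j) + Polynomial.X * Polynomial.C ((j : ℕ) + 1 : ℂ)) ^ 3 with hp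
    have hcoef : p.coeff 3 = ((i : ℕ) + 1 : ℂ) ^ 3 - ((j : ℕ) + 1 : ℂ) ^ 3 := by
      have hexp : ∀ a b : ℂ, (Polynomial.C a + Polynomial.X * Polynomial.C b) ^ 3 =
          Polynomial.C (b ^ 3) * Polynomial.X ^ 3 + Polynomial.C (3 * a * b ^ 2) *
            Polynomial.X ^ 2 + Polynomial.C (3 * a ^ 2 * b) * Polynomial.X ^ 1 +
            Polynomial.C (a ^ 3) * Polynomial.X ^ 0 := by
        intro a b
        simp only [map_mul, map_pow]
        have : (Polynomial.C (3 : ℂ)) = 3 := rfl
        rw [this]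
        ring
      have hc3 : ∀ a b : ℂ, ((Polynomial.C a + Polynomial.X * Polynomial.C b) ^ 3).coeff 3 =
          b ^ 3 := by
        intro a b
        rw [hexp]
        simp only [Polynomial.coeff_add, Polynomial.coeff_C_mul, Polynomial.coeff_X_pow]
        norm_num
      rw [hp, Polynomial.coeff_sub, hc3, hc3]
    have hp0 : p ≠ 0 := by
      intro h0
      rw [h0, Polynomial.coeff_zero] at hcoef
      have h1 : (((i : ℕ) + 1) ^ 3 : ℕ) = (((j : ℕ) + 1) ^ 3 : ℕ) := by
        have : (((((i : ℕ) + 1) ^ 3 : ℕ)) : ℂ) = (((((j : ℕ) + 1) ^ 3 : ℕ)) : ℂ) := by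
          push_cast
          linear_combination -hcoef
        exact_mod_cast this
      have h2 := Nat.pow_left_injective (n := 3) (by norm_num) h1
      apply hij
      ext
      simpa using h2
    refine (Polynomial.finite_setOfPred_isRoot hp0).subset ?_
    intro t ht
    rw [Set.mem_ofPred_eq] at ht ⊢
    rw [Polynomial.IsRoot.def, hp]
    simp only [Polynomial.eval_sub, Polynomial.eval_pow, Polynomial.eval_add, Polynomial.eval_mul,
      Polynomial.eval_C, Polynomial.eval_X]
    rw [ht]; ring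
  have hsub : {t : ℂ | ¬ ∀ i j : Fin M, i ≠ j →
      (z i + t * ((i : ℕ) + 1)) ^ 3 ≠ (z j + t * ((j : ℕ) + 1)) ^ 3} ⊆
      ⋃ i : Fin M, ⋃ j : Fin M, ⋃ (_ : i ≠ j),
        {t : ℂ | (z i + t * ((i : ℕ) + 1)) ^ 3 = (z j + t * ((j : ℕ) + 1)) ^ 3} := by
    intro t ht
    rw [Set.mem_ofPred_eq] at ht
    push Not at ht
    obtain ⟨i, j, hij, h⟩ := ht
    simp only [Set.mem_iUnion]
    exact ⟨i, j, hij, h⟩
  refine Set.Finite.subset ?_ hsub
  apply Set.finite_iUnion
  intro i
  apply Set.finite_iUnion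
  intro j
  apply Set.finite_iUnion
  intro hij
  exact key i j hij

/-- the perturbed sequence -/
noncomputable def zt (z : ℕ → ℂ) (t : ℂ) : ℕ → ℂ := fun n => z n + t * ((n : ℂ) + 1)

lemma zt_zero (z : ℕ → ℂ) : zt z 0 = z := by
  funext n; simp [zt]

lemma zt_cont (z : ℕ → ℂ) : Continuous (zt z) := by
  unfold zt
  apply continuous_pi
  intro n
  fun_prop

/-- two continuous functions of `t` which agree whenever the perturbed sequence has distinct
cubes agree at `0` -/
lemma line_ext {M : ℕ} (z : ℕ → ℂ) {F G : ℂ → ℂ} (hF : Continuous F) (hG : Continuous G)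
    (h : ∀ t, (∀ i j : Fin M, i ≠ j → (zt z t i) ^ 3 ≠ (zt z t j) ^ 3) → F t = G t) :
    F 0 = G 0 := by
  have hfin := cubes_finite (M := M) z
  have hd : Dense ({t : ℂ | ¬ ∀ i j : Fin M, i ≠ j →
      (z i + t * ((i : ℕ) + 1)) ^ 3 ≠ (z j + t * ((j : ℕ) + 1)) ^ 3}ᶜ) :=
    hfin.countable.dense_compl ℂ
  have := Continuous.ext_on hd hF hG (by
    intro t ht
    apply h
    simp only [Set.mem_compl_iff, Set.mem_ofPred_eq, not_not] at ht
    exact ht)
  rw [this]

lemma ne_of_cubes {M : ℕ} {z : ℕ → ℂ} (h : ∀ i j : Fin M, i ≠ j → (z i) ^ 3 ≠ (z j) ^ 3) :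
    ∀ i j : Fin M, i ≠ j → z i ≠ z j := by
  intro i j hij h'
  exact h i j hij (by rw [h'])

open MvPolynomial in
lemma eval_pt_cont {k M : ℕ} {X' : Type*} [TopologicalSpace X'] (P : MvPolynomial (Fin k ⊕ Fin M) ℂ)
    {c : X' → Fin k → ℂ} {z : X' → ℕ → ℂ} (hc : Continuous c) (hz : Continuous z) :
    Continuous (fun t => eval (pt (c t) (z t)) P) := by
  apply (MvPolynomial.continuous_eval P).comp
  apply continuous_pi
  rintro (l | j)
  · exact (continuous_apply l).comp hc
  · exact (continuous_apply (j : ℕ)).comp hz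

/-- extension of a finite sequence -/
noncomputable def ext0 {M : ℕ} (z : Fin M → ℂ) : ℕ → ℂ := fun n => if h : n < M then z ⟨n, h⟩ else 0

@[simp] lemma ext0_apply {M : ℕ} (z : Fin M → ℂ) (j : Fin M) : ext0 z j = z j := by
  simp [ext0]

lemma ext0_cont {M : ℕ} {X' : Type*} [TopologicalSpace X'] {z : X' → Fin M → ℂ}
    (hz : Continuous z) : Continuous (fun t => ext0 (z t)) := by
  apply continuous_pi
  intro n
  unfold ext0
  by_cases h : n < M
  · simp only [h, dif_pos]
    exact (continuous_apply _).comp hz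
  · simp only [h, dif_neg, not_false_iff]
    exact continuous_const

open MvPolynomial in
lemma NPoly_swap {k M : ℕ} (u v : ℂ) (c : Fin k → ℂ) (z : ℕ → ℂ) {a b : Fin M} (hab : a ≠ b) :
    eval (pt c (ext0 (fun j : Fin M => z (Equiv.swap a b j)))) (NPoly k M u v) =
      -eval (pt c z) (NPoly k M u v) := by
  have hF : Continuous (fun t : ℂ => eval (pt c (ext0 (fun j : Fin M =>
      zt z t (Equiv.swap a b j)))) (NPoly k M u v)) := by
    apply eval_pt_cont _ continuous_const
    apply ext0_cont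
    apply continuous_pi
    intro j
    exact (continuous_apply _).comp (zt_cont z)
  have hG : Continuous (fun t : ℂ => -eval (pt c (zt z t)) (NPoly k M u v)) :=
    (eval_pt_cont _ continuous_const (zt_cont z)).neg
  have := line_ext (M := M) z hF hG (by
    intro t ht
    have h1 := ne_of_cubes ht
    have h2 : ∀ i j : Fin M, i ≠ j → ext0 (fun j : Fin M => zt z t (Equiv.swap a b j)) i ≠
        ext0 (fun j : Fin M => zt z t (Equiv.swap a b j)) j := by
      intro i j hij
      rw [ext0_apply, ext0_apply]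
      exact h1 _ _ (fun h => hij ((Equiv.swap a b).injective h))
    rw [NPoly_eq u v c _ h1, NPoly_eq u v c _ h2,
      SGen_symm_z u v c (z := zt z t) (Equiv.swap a b) (fun j => ext0_apply _ j),
      dz_perm (z := zt z t) (Equiv.swap a b) (fun j => ext0_apply _ j),
      Equiv.Perm.sign_swap hab]
    push_cast
    ring)
  simp only [zt_zero] at this
  exact this

open MvPolynomial in
lemma NPoly_zero {k M : ℕ} (u v : ℂ) (x : Fin k ⊕ Fin M → ℂ) {a b : Fin M} (hab : a ≠ b)
    (h : x (Sum.inr a) = x (Sum.inr b)) : eval x (NPoly k M u v) = 0 := by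
  have h1 := NPoly_swap (k := k) u v (fun l => x (Sum.inl l)) (ext0 (fun j : Fin M => x (Sum.inr j)))
    hab
  have e1 : pt (k := k) (M := M) (fun l => x (Sum.inl l)) (ext0 (fun j : Fin M => x (Sum.inr j))) =
      x := by
    funext s
    rcases s with l | j
    · rfl
    · simp [pt]
  have e2 : pt (k := k) (M := M) (fun l => x (Sum.inl l)) (ext0 (fun j : Fin M =>
      ext0 (fun j : Fin M => x (Sum.inr j)) (Equiv.swap a b j))) = x := by
    funext s
    rcases s with l | j
    · rfl
    · have : pt (k := k) (M := M) (fun l => x (Sum.inl l)) (ext0 (fun j : Fin M =>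
          ext0 (fun j : Fin M => x (Sum.inr j)) (Equiv.swap a b j))) (Sum.inr j) =
          x (Sum.inr (Equiv.swap a b j)) := by
        simp [pt]
      rw [this]
      rcases eq_or_ne j a with rfl | hja
      · rw [Equiv.swap_apply_left, h]
      rcases eq_or_ne j b with rfl | hjb
      · rw [Equiv.swap_apply_right, h]
      · rw [Equiv.swap_apply_of_ne_of_ne hja hjb]
  rw [e1, e2] at h1
  have h2 : (2 : ℂ) * eval x (NPoly k M u v) = 0 := by linear_combination h1
  rcases mul_eq_zero.1 h2 with h3 | h3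
  · norm_num at h3
  · exact h3

/-! ### divisibility -/

section dvd

open MvPolynomial

variable {σ : Type*} [DecidableEq σ]

/-- substitution `X j ↦ X i` -/
noncomputable def sb (i j : σ) : MvPolynomial σ ℂ →ₐ[ℂ] MvPolynomial σ ℂ :=
  aeval (fun s => if s = j then X i else X s)

lemma dvd_of_sb (i j : σ) (P : MvPolynomial σ ℂ) (h : sb i j P = 0) :
    (X j - X i : MvPolynomial σ ℂ) ∣ P := by
  rw [← Ideal.mem_span_singleton, ← Ideal.Quotient.eq_zero_iff_mem]
  have key : (Ideal.Quotient.mkₐ ℂ (Ideal.span {(X j - X i : MvPolynomial σ ℂ)})).comp (sb i j) =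
      Ideal.Quotient.mkₐ ℂ (Ideal.span {(X j - X i : MvPolynomial σ ℂ)}) := by
    apply MvPolynomial.algHom_ext
    intro s
    simp only [AlgHom.comp_apply, sb, aeval_X]
    by_cases hs : s = j
    · subst hs
      rw [if_pos rfl]
      symm
      rw [Ideal.Quotient.mkₐ_eq_mk, Ideal.Quotient.eq]
      exact Ideal.mem_span_singleton_self _
    · rw [if_neg hs]
  have h2 := congrArg (fun f => f P) key
  simp only [AlgHom.comp_apply, h, map_zero] at h2
  rw [Ideal.Quotient.mkₐ_eq_mk] at h2
  exact h2.symm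

lemma sb_sub (i j : σ) : sb i j (X j - X i : MvPolynomial σ ℂ) = 0 := by
  unfold sb
  simp only [map_sub, aeval_X, if_true]
  by_cases h : i = j
  · simp [h]
  · simp [h]

lemma sb_ne {i j a b : σ} (hab : a ≠ b) (h1 : ¬ (a = i ∧ b = j)) (h2 : ¬ (a = j ∧ b = i)) :
    sb i j (X b - X a : MvPolynomial σ ℂ) ≠ 0 := by
  unfold sb
  simp only [map_sub, aeval_X]
  intro h
  rw [sub_eq_zero] at h
  split_ifs at h with hb ha ha
  · exact hab (ha.trans hb.symm)
  · exact h1 ⟨(X_injective h).symm, hb⟩
  · exact h2 ⟨ha, X_injective h⟩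
  · exact hab (X_injective h).symm

end dvd

open MvPolynomial in
lemma prod_dvd {k M : ℕ} (N : MvPolynomial (Fin k ⊕ Fin M) ℂ) (T : Finset (Fin M × Fin M))
    (hT : ∀ p ∈ T, p.1 < p.2)
    (hN : ∀ p ∈ T, sb (Sum.inr p.1) (Sum.inr p.2) N = 0) :
    (∏ p ∈ T, (X (Sum.inr p.2) - X (Sum.inr p.1) : MvPolynomial (Fin k ⊕ Fin M) ℂ)) ∣ N := by
  induction T using Finset.induction_on with
  | empty => simp
  | insert p T hp ih =>
    obtain ⟨N', hN'⟩ := ih (fun p hp => hT p (mem_insert_of_mem hp))
      (fun p hp => hN p (mem_insert_of_mem hp))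
    have h1 := hN p (mem_insert_self _ _)
    rw [hN', map_mul, map_prod] at h1
    have h2 : ∏ x ∈ T, sb (Sum.inr p.1) (Sum.inr p.2)
        (X (Sum.inr x.2) - X (Sum.inr x.1) : MvPolynomial (Fin k ⊕ Fin M) ℂ) ≠ 0 := by
      rw [Finset.prod_ne_zero_iff]
      intro x hx
      have hx1 := hT x (mem_insert_of_mem hx)
      have hp1 := hT p (mem_insert_self _ _)
      apply sb_ne
      · exact fun h => hx1.ne (Sum.inr_injective h)
      · rintro ⟨h3, h4⟩
        apply hp
        have : x = p := Prod.ext (Sum.inr_injective h3) (Sum.inr_injective h4)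
        rwa [← this]
      · rintro ⟨h3, h4⟩
        have h5 : x.1 = p.2 := Sum.inr_injective h3
        have h6 : x.2 = p.1 := Sum.inr_injective h4
        rw [h5, h6] at hx1
        exact absurd hp1 (not_lt.2 hx1.le)
    have h3 := (mul_eq_zero.1 h1).resolve_left h2
    obtain ⟨N'', hN''⟩ := dvd_of_sb _ _ _ h3
    rw [Finset.prod_insert hp, hN', hN'']
    exact ⟨N'', by ring⟩

open MvPolynomial in
/-- Vandermonde polynomial -/
noncomputable def DPoly (k M : ℕ) : MvPolynomial (Fin k ⊕ Fin M) ℂ :=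
  ∏ p ∈ (univ : Finset (Fin M × Fin M)).filter (fun p => p.1 < p.2),
    (X (Sum.inr p.2) - X (Sum.inr p.1))

open MvPolynomial in
lemma DPoly_eval {k M : ℕ} (c : Fin k → ℂ) (z : ℕ → ℂ) :
    eval (pt c z) (DPoly k M) = dz M z := by
  unfold DPoly dz
  rw [prod_lt_eq, map_prod]
  apply Finset.prod_congr rfl
  intro p _
  simp [pt]

open MvPolynomial in
lemma exists_SPoly (k M : ℕ) (u v : ℂ) : ∃ P, NPoly k M u v = DPoly k M * P := by
  have := prod_dvd (k := k) (NPoly k M u v)
    ((univ : Finset (Fin M × Fin M)).filter (fun p => p.1 < p.2))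
    (fun p hp => (mem_filter.1 hp).2) (by
      intro p hp
      have hp' := (mem_filter.1 hp).2
      apply MvPolynomial.funext
      intro x
      rw [map_zero]
      have e : eval x (sb (Sum.inr p.1) (Sum.inr p.2) (NPoly k M u v)) =
          eval (fun s => if s = Sum.inr p.2 then x (Sum.inr p.1) else x s) (NPoly k M u v) := by
        unfold sb
        have h1 : ∀ Q : MvPolynomial (Fin k ⊕ Fin M) ℂ,
            eval x ((aeval (fun s => if s = Sum.inr p.2 then
              (X (Sum.inr p.1) : MvPolynomial (Fin k ⊕ Fin M) ℂ) else X s)) Q) =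
            eval (fun s => if s = Sum.inr p.2 then x (Sum.inr p.1) else x s) Q := by
          intro Q
          rw [← MvPolynomial.bind₁, ← MvPolynomial.coe_aeval_eq_eval, ← MvPolynomial.coe_aeval_eq_eval]
          simp only [RingHom.coe_coe]
          rw [MvPolynomial.aeval_bind₁]
          congr 2
          funext s
          split_ifs <;> simp
        exact h1 _
      rw [e]
      apply NPoly_zero u v _ (a := p.1) (b := p.2) hp'.ne
      have : (Sum.inr p.1 : Fin k ⊕ Fin M) ≠ Sum.inr p.2 := fun h => hp'.ne (Sum.inr_injective h)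
      simp [this])
  exact this

/-- The polynomial `S`. -/
noncomputable def SPoly (k M : ℕ) (u v : ℂ) : MvPolynomial (Fin k ⊕ Fin M) ℂ :=
  Classical.choose (exists_SPoly k M u v)

lemma SPoly_spec (k M : ℕ) (u v : ℂ) : NPoly k M u v = DPoly k M * SPoly k M u v :=
  Classical.choose_spec (exists_SPoly k M u v)

/-- The value of the polynomial `S` at legs `c` and strands `z`. -/
noncomputable def S (k M : ℕ) (u v : ℂ) (c : Fin k → ℂ) (z : ℕ → ℂ) : ℂ :=
  MvPolynomial.eval (pt c z) (SPoly k M u v)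

/-- for pairwise distinct strand parameters `S` is the explicit sum -/
theorem S_eq_SGen {k M : ℕ} (u v : ℂ) (c : Fin k → ℂ) (z : ℕ → ℂ)
    (hz : ∀ i j : Fin M, i ≠ j → z i ≠ z j) : S k M u v c z = SGen k M u v c z := by
  have h1 := NPoly_eq u v c z hz
  rw [SPoly_spec, map_mul, DPoly_eval] at h1
  exact mul_left_cancel₀ (dz_ne_zero hz) h1

theorem S_continuous {k M : ℕ} (u v : ℂ) {X' : Type*} [TopologicalSpace X']
    {c : X' → Fin k → ℂ} {z : X' → ℕ → ℂ} (hc : Continuous c) (hz : Continuous z) :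
    Continuous (fun t => S k M u v (c t) (z t)) := eval_pt_cont _ hc hz

theorem S_congr {k M : ℕ} (u v : ℂ) (c : Fin k → ℂ) {z z' : ℕ → ℂ}
    (h : ∀ j : Fin M, z' j = z j) : S k M u v c z' = S k M u v c z := by
  unfold S
  congr 2
  funext s
  rcases s with l | j
  · rfl
  · exact h j

/-- `S` is symmetric in the legs -/
theorem S_symm_c {k M : ℕ} (u v : ℂ) (c : Fin k → ℂ) (z : ℕ → ℂ) (σ : Equiv.Perm (Fin k)) :
    S k M u v (fun l => c (σ l)) z = S k M u v c z := by
  have hF : Continuous (fun t : ℂ => S k M u v (fun l => c (σ l)) (zt z t)) :=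
    S_continuous u v continuous_const (zt_cont z)
  have hG : Continuous (fun t : ℂ => S k M u v c (zt z t)) :=
    S_continuous u v continuous_const (zt_cont z)
  have := line_ext (M := M) z hF hG (by
    intro t ht
    rw [S_eq_SGen _ _ _ _ (ne_of_cubes ht), S_eq_SGen _ _ _ _ (ne_of_cubes ht), SGen_symm_c])
  simpa only [zt_zero] using this

/-- `S` is symmetric in the strands -/
theorem S_symm_z {k M : ℕ} (u v : ℂ) (c : Fin k → ℂ) {z z' : ℕ → ℂ} (σ : Equiv.Perm (Fin M))
    (h : ∀ j : Fin M, z' j = z (σ j)) : S k M u v c z' = S k M u v c z := by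
  have h0 : S k M u v c z' = S k M u v c (ext0 (fun j : Fin M => z (σ j))) :=
    S_congr u v c (fun j => by rw [h, ext0_apply])
  rw [h0]
  have hF : Continuous (fun t : ℂ => S k M u v c (ext0 (fun j : Fin M => zt z t (σ j)))) := by
    apply S_continuous u v continuous_const
    apply ext0_cont
    apply continuous_pi
    intro j
    exact (continuous_apply _).comp (zt_cont z)
  have hG : Continuous (fun t : ℂ => S k M u v c (zt z t)) :=
    S_continuous u v continuous_const (zt_cont z)
  have := line_ext (M := M) z hF hG (by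
    intro t ht
    have h1 := ne_of_cubes ht
    rw [S_eq_SGen _ _ _ _ h1, S_eq_SGen _ _ _ (ext0 _) (by
      intro i j hij
      rw [ext0_apply, ext0_apply]
      exact h1 _ _ (fun h => hij (σ.injective h)))]
    exact SGen_symm_z u v c σ (fun j => ext0_apply _ j))
  simpa only [zt_zero] using this

lemma update_cont {k : ℕ} {X' : Type*} [TopologicalSpace X'] (c : Fin k → ℂ) (l : Fin k)
    {f : X' → ℂ} (hf : Continuous f) : Continuous (fun t => Function.update c l (f t)) :=
  continuous_const.update l hf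

lemma del_cont {X' : Type*} [TopologicalSpace X'] (j : ℕ) {z : X' → ℕ → ℂ} (hz : Continuous z) :
    Continuous (fun t => del j (z t)) := by
  apply continuous_pi
  intro n
  unfold del
  by_cases h : n < j
  · simp only [h, if_true]
    exact (continuous_apply _).comp hz
  · simp only [h, if_false]
    exact (continuous_apply _).comp hz

/-- recursion at `c l = q² z j`, for all values of the parameters -/
theorem S_rec1 {k M : ℕ} (u v : ℂ) (c : Fin k → ℂ) (z : ℕ → ℂ) (l : Fin k) (j : Fin (M + 1)) :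
    S k (M + 1) u v (Function.update c l (H56.EX.q ^ 2 * z j)) z =
      u * ((H56.EX.q ^ 2 - H56.EX.q) * z j) * (∏ i ∈ univ.erase l, (c i - H56.EX.q * z j)) *
        (∏ i : Fin M, (del j z i - H56.EX.q * z j) ^ 2) *
        S k M u v (Function.update c l (z j)) (del j z) := by
  have hzc : ∀ n : ℕ, Continuous (fun t : ℂ => zt z t n) := fun n =>
    (continuous_apply n).comp (zt_cont z)
  have hdc : ∀ n : ℕ, Continuous (fun t : ℂ => del j (zt z t) n) := fun n =>
    (continuous_apply n).comp (del_cont j (zt_cont z))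
  have hF : Continuous (fun t : ℂ => S k (M + 1) u v
      (Function.update c l (H56.EX.q ^ 2 * zt z t j)) (zt z t)) :=
    S_continuous u v (update_cont c l (continuous_const.mul (hzc j))) (zt_cont z)
  have hG : Continuous (fun t : ℂ => u * ((H56.EX.q ^ 2 - H56.EX.q) * zt z t j) *
        (∏ i ∈ univ.erase l, (c i - H56.EX.q * zt z t j)) *
        (∏ i : Fin M, (del j (zt z t) i - H56.EX.q * zt z t j) ^ 2) *
        S k M u v (Function.update c l (zt z t j)) (del j (zt z t))) := by
    refine Continuous.mul (Continuous.mul (Continuous.mul ?_ ?_) ?_) ?_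
    · exact continuous_const.mul (continuous_const.mul (hzc j))
    · apply continuous_finsetProd
      intro i _
      exact continuous_const.sub (continuous_const.mul (hzc j))
    · apply continuous_finsetProd
      intro i _
      exact ((hdc i).sub (continuous_const.mul (hzc j))).pow 2
    · exact S_continuous u v (update_cont c l (hzc j)) (del_cont j (zt_cont z))
  have := line_ext (M := M + 1) z hF hG (by
    intro t ht
    rw [S_eq_SGen _ _ _ _ (ne_of_cubes ht), S_eq_SGen _ _ _ _ (ne_of_cubes (cubes_del j _ ht))]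
    exact SGen_rec1 u v c (zt z t) l j ht)
  simpa only [zt_zero] using this

/-- recursion at `c l = q z j`, for all values of the parameters -/
theorem S_rec2 {k M : ℕ} (u v : ℂ) (c : Fin k → ℂ) (z : ℕ → ℂ) (l : Fin k) (j : Fin (M + 1)) :
    S k (M + 1) u v (Function.update c l (H56.EX.q * z j)) z =
      v * ((H56.EX.q - H56.EX.q ^ 2) * z j) *
        (∏ i ∈ univ.erase l, (c i - H56.EX.q ^ 2 * z j)) *
        (∏ i : Fin M, (del j z i - H56.EX.q ^ 2 * z j) ^ 2) *
        S k M u v (Function.update c l (z j)) (del j z) := by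
  have hzc : ∀ n : ℕ, Continuous (fun t : ℂ => zt z t n) := fun n =>
    (continuous_apply n).comp (zt_cont z)
  have hdc : ∀ n : ℕ, Continuous (fun t : ℂ => del j (zt z t) n) := fun n =>
    (continuous_apply n).comp (del_cont j (zt_cont z))
  have hF : Continuous (fun t : ℂ => S k (M + 1) u v
      (Function.update c l (H56.EX.q * zt z t j)) (zt z t)) :=
    S_continuous u v (update_cont c l (continuous_const.mul (hzc j))) (zt_cont z)
  have hG : Continuous (fun t : ℂ => v * ((H56.EX.q - H56.EX.q ^ 2) * zt z t j) *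
        (∏ i ∈ univ.erase l, (c i - H56.EX.q ^ 2 * zt z t j)) *
        (∏ i : Fin M, (del j (zt z t) i - H56.EX.q ^ 2 * zt z t j) ^ 2) *
        S k M u v (Function.update c l (zt z t j)) (del j (zt z t))) := by
    refine Continuous.mul (Continuous.mul (Continuous.mul ?_ ?_) ?_) ?_
    · exact continuous_const.mul (continuous_const.mul (hzc j))
    · apply continuous_finsetProd
      intro i _
      exact continuous_const.sub (continuous_const.mul (hzc j))
    · apply continuous_finsetProd
      intro i _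
      exact ((hdc i).sub (continuous_const.mul (hzc j))).pow 2
    · exact S_continuous u v (update_cont c l (hzc j)) (del_cont j (zt_cont z))
  have := line_ext (M := M + 1) z hF hG (by
    intro t ht
    rw [S_eq_SGen _ _ _ _ (ne_of_cubes ht), S_eq_SGen _ _ _ _ (ne_of_cubes (cubes_del j _ ht))]
    exact SGen_rec2 u v c (zt z t) l j ht)
  simpa only [zt_zero] using this

theorem S_zero {k : ℕ} (u v : ℂ) (c : Fin k → ℂ) (z : ℕ → ℂ) : S k 0 u v c z = 1 := by
  rw [S_eq_SGen _ _ _ _ (fun i => i.elim0)]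
  unfold SGen
  simp

/-! ### degree in a leg parameter -/

open MvPolynomial in
lemma NPoly_degreeOf {k M : ℕ} (u v : ℂ) (l : Fin k) :
    degreeOf (Sum.inl l) (NPoly k M u v) ≤ M := by
  unfold NPoly
  refine (degreeOf_sum_le _ _ _).trans (Finset.sup_le ?_)
  intro ε _
  refine (degreeOf_mul_le _ _ _).trans ?_
  have h1 : degreeOf (Sum.inl l) (∏ j : Fin M, ((C (if ε j then u else v) :
      MvPolynomial (Fin k ⊕ Fin M) ℂ) *
      ∏ l : Fin k, (X (Sum.inl l) - C (ev (ε j)) * X (Sum.inr j)))) ≤ M := by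
    refine (degreeOf_prod_le _ _ _).trans ?_
    refine (Finset.sum_le_card_nsmul univ _ 1 ?_).trans (by simp)
    intro j _
    refine (degreeOf_mul_le _ _ _).trans ?_
    rw [degreeOf_C, zero_add]
    refine (degreeOf_prod_le _ _ _).trans ?_
    have h2 : ∀ l' : Fin k, degreeOf (Sum.inl l) (X (Sum.inl l') - C (ev (ε j)) *
        X (Sum.inr j) : MvPolynomial (Fin k ⊕ Fin M) ℂ) ≤ if l = l' then 1 else 0 := by
      intro l'
      refine (degreeOf_sub_le _ _ _).trans (max_le ?_ ?_)
      · rw [degreeOf_X]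
        by_cases h : l = l'
        · simp [h]
        · simp [h]
      · refine (degreeOf_mul_le _ _ _).trans ?_
        rw [degreeOf_C, degreeOf_X]
        simp
    refine (Finset.sum_le_sum (fun l' _ => h2 l')).trans ?_
    simp
  have h2 : degreeOf (Sum.inl l) (∏ j : Fin M, ∏ k' : Fin M, if j < k' then
      fnum (C H56.EX.q) (ε j) (ε k') (X (Sum.inr j)) (X (Sum.inr k') :
        MvPolynomial (Fin k ⊕ Fin M) ℂ) else 1) ≤ 0 := by
    refine (degreeOf_prod_le _ _ _).trans ?_
    apply le_of_eq
    apply Finset.sum_eq_zero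
    intro j _
    apply Nat.eq_zero_of_le_zero
    refine (degreeOf_prod_le _ _ _).trans ?_
    apply le_of_eq
    apply Finset.sum_eq_zero
    intro k' _
    have hX : ∀ j : Fin M, degreeOf (Sum.inl l) (X (Sum.inr j) :
        MvPolynomial (Fin k ⊕ Fin M) ℂ) = 0 := by
      intro j; rw [degreeOf_X]; simp
    have hX3 : ∀ j : Fin M, degreeOf (Sum.inl l) ((X (Sum.inr j) :
        MvPolynomial (Fin k ⊕ Fin M) ℂ) ^ 3) = 0 := by
      intro j
      apply Nat.eq_zero_of_le_zero
      refine (degreeOf_pow_le _ _ _).trans ?_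
      rw [hX]
    have hL : ∀ i j : Fin M, degreeOf (Sum.inl l) ((X (Sum.inr i) - C H56.EX.q * X (Sum.inr j) :
        MvPolynomial (Fin k ⊕ Fin M) ℂ) ^ 3) = 0 := by
      intro i j
      apply Nat.eq_zero_of_le_zero
      refine (degreeOf_pow_le _ _ _).trans ?_
      have : degreeOf (Sum.inl l) (X (Sum.inr i) - C H56.EX.q * X (Sum.inr j) :
        MvPolynomial (Fin k ⊕ Fin M) ℂ) ≤ 0 := by
        refine (degreeOf_sub_le _ _ _).trans (max_le ?_ ?_)
        · rw [hX]
        · refine (degreeOf_mul_le _ _ _).trans ?_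
          rw [degreeOf_C, hX]
      omega
    split_ifs with h
    · unfold fnum
      split_ifs
      · apply Nat.eq_zero_of_le_zero
        refine (degreeOf_sub_le _ _ _).trans (max_le ?_ ?_)
        · rw [hX3]
        · rw [hX3]
      · exact hL _ _
      · apply Nat.eq_zero_of_le_zero
        have : -(X (Sum.inr j) - C H56.EX.q * X (Sum.inr k') :
            MvPolynomial (Fin k ⊕ Fin M) ℂ) ^ 3 = C (-1) * (X (Sum.inr j) - C H56.EX.q *
              X (Sum.inr k')) ^ 3 := by
          simp
        rw [this]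
        refine (degreeOf_mul_le _ _ _).trans ?_
        rw [degreeOf_C, hL]
    · rw [← C_1, degreeOf_C]
  omega

open MvPolynomial in
lemma DPoly_ne_zero (k M : ℕ) : DPoly k M ≠ 0 := by
  unfold DPoly
  rw [Finset.prod_ne_zero_iff]
  intro p hp
  have hp' := (mem_filter.1 hp).2
  rw [sub_ne_zero]
  intro h
  exact hp'.ne' (Sum.inr_injective (X_injective h))

open MvPolynomial in
lemma SPoly_degreeOf {k M : ℕ} (u v : ℂ) (l : Fin k) :
    degreeOf (Sum.inl l) (SPoly k M u v) ≤ M := by
  by_cases h : SPoly k M u v = 0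
  · rw [h]; simp
  have h1 := NPoly_degreeOf (M := M) u v l
  rw [SPoly_spec, degreeOf_mul_eq (DPoly_ne_zero k M) h] at h1
  omega

open MvPolynomial in
lemma exists_poly_of_degreeOf {σ : Type*} [DecidableEq σ] (P : MvPolynomial σ ℂ) (i : σ) (d : ℕ)
    (hd : degreeOf i P ≤ d) (x : σ → ℂ) :
    ∃ p : Polynomial ℂ, p.natDegree ≤ d ∧ ∀ t, p.eval t = eval (Function.update x i t) P := by
  refine ⟨aeval (fun s => if s = i then Polynomial.X else Polynomial.C (x s)) P, ?_, ?_⟩
  · rw [aeval_def, eval₂_eq]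
    apply Polynomial.natDegree_sum_le_of_forall_le
    intro m hm
    have hm' : m i ≤ d := (monomial_le_degreeOf i hm).trans hd
    refine (Polynomial.natDegree_mul_le).trans ?_
    have h1 : ((algebraMap ℂ (Polynomial ℂ)) (coeff m P)).natDegree = 0 :=
      Polynomial.natDegree_C _
    rw [h1, zero_add]
    refine (Polynomial.natDegree_prod_le _ _).trans ?_
    have h2 : ∀ s ∈ m.support, ((if s = i then Polynomial.X else Polynomial.C (x s) :
        Polynomial ℂ) ^ m s).natDegree ≤ if s = i then m i else 0 := by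
      intro s _
      refine (Polynomial.natDegree_pow_le).trans ?_
      by_cases hs : s = i
      · subst hs; simp
      · simp [hs]
    refine (Finset.sum_le_sum h2).trans ?_
    rw [Finset.sum_ite_eq']
    split_ifs
    · exact hm'
    · exact Nat.zero_le _
  · intro t
    have h1 : Polynomial.eval t ((aeval (fun s => if s = i then Polynomial.X else
        Polynomial.C (x s))) P) = eval (Function.update x i t) P := by
      rw [aeval_def, eval₂_eq, eval_eq, Polynomial.eval_finsetSum]
      apply Finset.sum_congr rfl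
      intro m _
      rw [Polynomial.eval_mul, Polynomial.eval_prod]
      congr 1
      · exact Polynomial.eval_C
      · apply Finset.prod_congr rfl
        intro s _
        rw [Polynomial.eval_pow]
        congr 1
        by_cases hs : s = i
        · subst hs; simp
        · simp [hs]
    exact h1

/-- `S` is a polynomial of degree `≤ M` in each leg parameter -/
theorem S_poly {k M : ℕ} (u v : ℂ) (c : Fin k → ℂ) (z : ℕ → ℂ) (l : Fin k) :
    ∃ p : Polynomial ℂ, p.natDegree ≤ M ∧ ∀ t, p.eval t = S k M u v (Function.update c l t) z := by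
  obtain ⟨p, hp, hpe⟩ := exists_poly_of_degreeOf (SPoly k M u v) (Sum.inl l) M
    (SPoly_degreeOf u v l) (pt c z)
  refine ⟨p, hp, ?_⟩
  intro t
  rw [hpe]
  unfold S
  congr 2
  funext s
  rcases s with l' | j
  · by_cases h : l' = l
    · subst h; simp [pt]
    · have : (Sum.inl l' : Fin k ⊕ Fin M) ≠ Sum.inl l := fun h' => h (Sum.inl_injective h')
      rw [Function.update_of_ne this]
      simp [pt, Function.update_of_ne h]
  · rw [Function.update_of_ne (by simp)]
    rfl

end Pool.Agent.H96.EX
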